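import Mathlib

set_option autoImplicit false
set_option linter.unusedSectionVars false

/-!
# Infinite orthogonal sequences in infinite-dimensional C*-algebras
-/

open Filter Topology

namespace Pool.Agent.H25FA

variable {B : Type*} [CStarAlgebra B]

/-- an infinite sequence of nonzero self-adjoint elements with products zero -/
def HasOrth (B : Type*) [CStarAlgebra B] : Prop :=
  ∃ g : ℕ → B, (∀ n, g n ≠ 0 ∧ IsSelfAdjoint (g n)) ∧ ∀ m n, m ≠ n → g m * g n = 0

theorem hasOrth_of_infinite_spectrum [Nontrivial B] {h : B} (hh : IsSelfAdjoint h)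
    (hs : (spectrum ℝ h).Infinite) : HasOrth B := by
  have : Infinite (spectrum ℝ h) := hs.to_subtype
  obtain ⟨V, hV1, hV2, hV3⟩ := exists_seq_infinite_isOpen_pairwise_disjoint (spectrum ℝ h)
  set C : ℕ → Set ℝ := fun n => Subtype.val '' (V n)ᶜ with hC
  have hCc : ∀ n, IsClosed (C n) := fun n =>
    (spectrum.isClosed h).isClosedEmbedding_subtypeVal.isClosedMap _ (hV2 n).isClosed_compl
  have hCn : ∀ n, (C n).Nonempty := by
    intro n
    obtain ⟨x, hx⟩ := (hV1 (n + 1)).nonempty
    refine ⟨x, x, ?_, rfl⟩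
    exact fun hx' => (Set.disjoint_left.1 (hV3 (Nat.succ_ne_self n))) hx hx'
  refine ⟨fun n => cfc (fun t : ℝ => Metric.infDist t (C n)) h, fun n => ⟨?_, cfc_predicate _ _⟩, ?_⟩
  · obtain ⟨x, hx⟩ := (hV1 n).nonempty
    have hx' : (x : ℝ) ∉ C n := by
      rintro ⟨y, hy, hyx⟩
      exact hy (by rwa [← Subtype.ext hyx] at hx)
    have hpos : 0 < Metric.infDist (x : ℝ) (C n) :=
      ((hCc n).notMem_iff_infDist_pos (hCn n)).1 hx'
    intro h0
    have h1 := cfc_map_spectrum (R := ℝ) (fun t : ℝ => Metric.infDist t (C n)) h hh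
      (by exact (Metric.continuous_infDist_pt _).continuousOn)
    have h0' : cfc (fun t : ℝ => Metric.infDist t (C n)) h = 0 := h0
    rw [h0'] at h1
    have h2 : Metric.infDist (x : ℝ) (C n) ∈ spectrum ℝ (0 : B) := by
      rw [h1]; exact ⟨x, x.2, rfl⟩
    rw [spectrum.zero_eq, Set.mem_singleton_iff] at h2
    exact hpos.ne' h2
  · intro m n hmn
    rw [← cfc_mul (fun t : ℝ => Metric.infDist t (C m)) (fun t : ℝ => Metric.infDist t (C n)) h
      ((Metric.continuous_infDist_pt _).continuousOn) ((Metric.continuous_infDist_pt _).continuousOn)]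
    rw [← cfc_zero ℝ h]
    apply cfc_congr
    intro t ht
    have h3 : (⟨t, ht⟩ : spectrum ℝ h) ∉ V m ∨ (⟨t, ht⟩ : spectrum ℝ h) ∉ V n := by
      by_contra hcon
      push Not at hcon
      exact Set.disjoint_left.1 (hV3 hmn) hcon.1 hcon.2
    simp only [Pi.zero_apply]
    rcases h3 with h3 | h3
    · have h4 : t ∈ C m := ⟨⟨t, ht⟩, h3, rfl⟩
      rw [Metric.infDist_zero_of_mem h4, zero_mul]
    · have h4 : t ∈ C n := ⟨⟨t, ht⟩, h3, rfl⟩
      rw [Metric.infDist_zero_of_mem h4, mul_zero]

/-- `p` is a projection with infinite-dimensional right ideal `p B`. -/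
def Rich (p : B) : Prop :=
  IsSelfAdjoint p ∧ p * p = p ∧ ¬ FiniteDimensional ℂ (LinearMap.range (LinearMap.mulLeft ℂ p))

theorem mem_range_iff {p x : B} (hp : p * p = p) :
    x ∈ LinearMap.range (LinearMap.mulLeft ℂ p) ↔ p * x = x := by
  constructor
  · rintro ⟨y, rfl⟩
    rw [LinearMap.mulLeft_apply, ← mul_assoc, hp]
  · intro h
    exact ⟨x, h⟩

theorem hasOrth_of_scalar {p : B} (hp : Rich p) (hsc : ∀ x : B, ∃ c : ℂ, p * x * p = c • p) :
    HasOrth B := by
  obtain ⟨hsa, hpp, hinf⟩ := hp
  set R := LinearMap.range (LinearMap.mulLeft ℂ p) with hR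
  have : Std.Symm (α := B) (fun x y : B => x * star y = 0) := ⟨fun x y hxy => by
    have := congrArg star hxy
    rwa [star_mul, star_star, star_zero] at this⟩
  obtain ⟨f, hf1, hf2⟩ := exists_seq_of_forall_finset_exists'
    (fun x : B => x ≠ 0 ∧ p * x = x) (fun x y => x * star y = 0) (by
      intro s hs
      by_contra hcon
      apply hinf
      have hval : ∀ x ∈ s, ∀ y : R, (y : B) * star x ∈ Submodule.span ℂ {p} := by
        intro x hx y
        have hy : p * (y : B) = y := (mem_range_iff hpp).1 y.2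
        have hx' : star x * p = star x := by
          have := congrArg star (hs x hx).2
          rwa [star_mul, hsa.star_eq] at this
        obtain ⟨c, hc⟩ := hsc ((y : B) * star x)
        rw [mul_assoc, mul_assoc, hx', ← mul_assoc, hy] at hc
        rw [hc]
        exact Submodule.smul_mem _ _ (Submodule.mem_span_singleton_self p)
      let L : R →ₗ[ℂ] (s → Submodule.span ℂ {p}) := LinearMap.pi fun x =>
        LinearMap.codRestrict (Submodule.span ℂ {p})
          ((LinearMap.mulRight ℂ (star (x : B))).domRestrict R) (fun y => hval x x.2 y)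
      have hL : Function.Injective L := by
        rw [injective_iff_map_eq_zero]
        intro y hy
        by_contra hy0
        apply hcon
        refine ⟨y, ⟨fun h => hy0 (Subtype.ext h), (mem_range_iff hpp).1 y.2⟩, fun x hx => ?_⟩
        have h1 := congrArg Subtype.val (congrFun hy ⟨x, hx⟩)
        have h2 : (y : B) * star x = 0 := h1
        have := congrArg star h2
        rwa [star_mul, star_star, star_zero] at this
      exact FiniteDimensional.of_injective L hL)
  refine ⟨fun n => star (f n) * f n, fun n => ⟨?_, IsSelfAdjoint.star_mul_self _⟩, ?_⟩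
  · rw [Ne, CStarRing.star_mul_self_eq_zero_iff]
    exact (hf1 n).1
  · intro m n hmn
    have h1 : f m * star (f n) = 0 := hf2 hmn
    calc star (f m) * f m * (star (f n) * f n) = star (f m) * (f m * star (f n)) * f n := by
          simp only [mul_assoc]
      _ = 0 := by rw [h1]; simp

theorem rich_step [Nontrivial B] (hno : ¬ HasOrth B) {p : B} (hp : Rich p) :
    ∃ q r : B, IsSelfAdjoint q ∧ q ≠ 0 ∧ q * r = 0 ∧ p * q = q ∧ p * r = r ∧ Rich r := by
  obtain ⟨hsa, hpp, hinf⟩ := hp
  have h1 : ∃ x : B, IsSelfAdjoint x ∧ p * x * p = x ∧ ∀ c : ℝ, x ≠ c • p := by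
    by_contra hcon
    push Not at hcon
    apply hno
    refine hasOrth_of_scalar ⟨hsa, hpp, hinf⟩ fun x => ?_
    have key : ∀ a : B, IsSelfAdjoint a → ∃ c : ℝ, p * a * p = c • p := by
      intro a ha
      refine hcon _ ?_ ?_
      · rw [isSelfAdjoint_iff, star_mul, star_mul, hsa.star_eq, ha.star_eq, mul_assoc]
      · calc p * (p * a * p) * p = (p * p) * a * (p * p) := by simp only [mul_assoc]
          _ = p * a * p := by rw [hpp]
    obtain ⟨c, hc⟩ := key (realPart x : B) (realPart x).2
    obtain ⟨d, hd⟩ := key (imaginaryPart x : B) (imaginaryPart x).2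
    refine ⟨(c : ℂ) + (d : ℂ) * Complex.I, ?_⟩
    have e : x = (realPart x : B) + Complex.I • (imaginaryPart x : B) :=
      (realPart_add_I_smul_imaginaryPart x).symm
    conv_lhs => rw [e]
    rw [mul_add, add_mul, mul_smul_comm, smul_mul_assoc, hc, hd, add_smul, mul_comm (d : ℂ),
      mul_smul, Complex.coe_smul, Complex.coe_smul]
  obtain ⟨x, hx, hpx, hxc⟩ := h1
  have hfin : (spectrum ℝ x).Finite := by
    by_contra hinf'
    exact hno (hasOrth_of_infinite_spectrum hx hinf')
  have hcont : ∀ f : ℝ → ℝ, ContinuousOn f (spectrum ℝ x) := fun f => hfin.continuousOn f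
  set e : ℝ → B := fun t => cfc (fun u : ℝ => if u = t then (1 : ℝ) else 0) x with he
  have hesa : ∀ t, IsSelfAdjoint (e t) := fun t => cfc_predicate _ _
  have hee : ∀ t, e t * e t = e t := by
    intro t
    rw [he]; simp only
    rw [← cfc_mul _ _ x (hcont _) (hcont _)]
    congr 1
    funext u
    split_ifs <;> simp
  have hex : ∀ t, e t * x = t • e t := by
    intro t
    have h2 : e t * x = cfc (fun u : ℝ => (if u = t then (1 : ℝ) else 0) * u) x := by
      rw [cfc_mul _ _ x (hcont _) (hcont _), cfc_id' ℝ x]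
    rw [h2, he]; simp only
    rw [← cfc_const_mul t _ x (hcont _)]
    congr 1
    funext u
    split_ifs with h
    · rw [h]; ring
    · ring
  have hxe : ∀ t, x * e t = t • e t := by
    intro t
    have := congrArg star (hex t)
    rwa [star_mul, (hesa t).star_eq, hx.star_eq, star_smul, (hesa t).star_eq, star_trivial] at this
  have hpx1 : p * x = x := by
    rw [← hpx]
    calc p * (p * x * p) = (p * p) * x * p := by simp only [mul_assoc]
      _ = p * x * p := by rw [hpp]
  have hpe : ∀ t, t ≠ 0 → p * e t = e t := by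
    intro t ht
    have h2 : e t = t⁻¹ • (x * e t) := by rw [hxe, smul_smul, inv_mul_cancel₀ ht, one_smul]
    rw [h2, mul_smul_comm, ← mul_assoc, hpx1]
  have hep : ∀ t, t ≠ 0 → e t * p = e t := by
    intro t ht
    have := congrArg star (hpe t ht)
    rwa [star_mul, (hesa t).star_eq, hsa.star_eq] at this
  -- a nonzero spectral value
  have hex0 : ∃ t ∈ spectrum ℝ x, t ≠ 0 := by
    by_contra hcon
    push Not at hcon
    apply hxc 0
    rw [zero_smul, ← cfc_id' ℝ x, ← cfc_zero ℝ x]
    apply cfc_congr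
    intro t ht
    simpa using hcon t ht
  obtain ⟨t, ht, ht0⟩ := hex0
  have he0 : e t ≠ 0 := by
    intro h0
    have h2 := cfc_map_spectrum (R := ℝ) (fun u : ℝ => if u = t then (1 : ℝ) else 0) x hx (hcont _)
    have h3 : (1 : ℝ) ∈ spectrum ℝ (cfc (fun u : ℝ => if u = t then (1 : ℝ) else 0) x) := by
      rw [h2]; exact ⟨t, ht, by simp⟩
    have h4 : cfc (fun u : ℝ => if u = t then (1 : ℝ) else 0) x = 0 := h0
    rw [h4, spectrum.zero_eq, Set.mem_singleton_iff] at h3
    exact one_ne_zero h3
  have hep' : p - e t ≠ 0 := by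
    intro h0
    have h2 : p = e t := sub_eq_zero.1 h0
    apply hxc t
    rw [h2, ← hex, ← h2, hpx1]
  -- the two parts
  have hr1 : IsSelfAdjoint (p - e t) := hsa.sub (hesa t)
  have hr2 : (p - e t) * (p - e t) = p - e t := by
    rw [mul_sub, sub_mul, sub_mul, hpp, hep t ht0, hpe t ht0, hee]; abel
  have hqr : e t * (p - e t) = 0 := by rw [mul_sub, hep t ht0, hee, sub_self]
  have hrq : (p - e t) * e t = 0 := by rw [sub_mul, hpe t ht0, hee, sub_self]
  have hpr : p * (p - e t) = p - e t := by rw [mul_sub, hpp, hpe t ht0]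
  by_cases hr : Rich (p - e t)
  · exact ⟨e t, p - e t, hesa t, he0, hqr, hpe t ht0, hpr, hr⟩
  · refine ⟨p - e t, e t, hr1, hep', hrq, hpr, hpe t ht0, ?_⟩
    refine ⟨hesa t, hee t, fun hq => hinf ?_⟩
    have hr' : FiniteDimensional ℂ (LinearMap.range (LinearMap.mulLeft ℂ (p - e t))) := by
      by_contra h
      exact hr ⟨hr1, hr2, h⟩
    have hle : LinearMap.range (LinearMap.mulLeft ℂ p) ≤
        LinearMap.range (LinearMap.mulLeft ℂ (e t)) ⊔
          LinearMap.range (LinearMap.mulLeft ℂ (p - e t)) := by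
      rintro _ ⟨y, rfl⟩
      rw [LinearMap.mulLeft_apply]
      have : p * y = e t * y + (p - e t) * y := by rw [← add_mul]; congr 1; abel
      rw [this]
      exact Submodule.add_mem_sup ⟨y, rfl⟩ ⟨y, rfl⟩
    exact Submodule.finiteDimensional_of_le hle

/-- **An infinite-dimensional unital C*-algebra contains an infinite sequence of nonzero
self-adjoint elements with products zero.** -/
theorem hasOrth (hinf : ¬ FiniteDimensional ℂ B) : HasOrth B := by
  by_contra hno
  have : Nontrivial B := by
    by_contra h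
    rw [not_nontrivial_iff_subsingleton] at h
    exact hinf inferInstance
  have h1 : Rich (1 : B) := by
    refine ⟨IsSelfAdjoint.one B, mul_one 1, fun h => hinf ?_⟩
    have : LinearMap.range (LinearMap.mulLeft ℂ (1 : B)) = ⊤ := by
      rw [LinearMap.mulLeft_one, LinearMap.range_id]
    rw [this] at h
    exact Module.Finite.equiv (Submodule.topEquiv (R := ℂ) (M := B))
  choose Q R hQ1 hQ2 hQR hpQ hpR hR using fun p : {p : B // Rich p} => rich_step hno p.2
  let P : ℕ → {p : B // Rich p} := fun n => Nat.rec ⟨1, h1⟩ (fun _ p => ⟨R p, hR p⟩) n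
  have hP : ∀ n, (P (n + 1)).1 = R (P n) := fun n => rfl
  have hqp : ∀ m k, Q (P m) * (P (m + 1 + k)).1 = 0 := by
    intro m k
    induction k with
    | zero => rw [add_zero, hP, hQR]
    | succ k ih =>
      rw [← add_assoc, hP]
      have := hpR (P (m + 1 + k))
      rw [← this, ← mul_assoc, ih, zero_mul]
  have hlt : ∀ m n, m < n → Q (P m) * Q (P n) = 0 := by
    intro m n hmn
    obtain ⟨k, rfl⟩ := Nat.exists_eq_add_of_lt hmn
    have e : m + k + 1 = m + 1 + k := by ring
    rw [e, ← hpQ (P (m + 1 + k)), ← mul_assoc, hqp, zero_mul]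
  apply hno
  refine ⟨fun n => Q (P n), fun n => ⟨hQ2 _, hQ1 _⟩, fun m n hmn => ?_⟩
  rcases lt_or_gt_of_ne hmn with h | h
  · exact hlt m n h
  · have := congrArg star (hlt n m h)
    rwa [star_mul, (hQ1 _).star_eq, (hQ1 _).star_eq, star_zero] at this

end Pool.Agent.H25FA
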