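import Mathlib
import Pool.Agent.H434R3.Arens

set_option autoImplicit false
set_option linter.unusedSectionVars false
set_option linter.deprecated false

/-!
# Coefficient algebras of unitary representations

`coef U ξ η` is the function `s ↦ ⟨U(s) ξ, η⟩`; `CoefAlg U ι` says that a commutative normed
algebra is, by means of the injective homomorphism `ι`, the algebra of the coefficient functions of
`U` with the norm `inf ‖ξ‖ ‖η‖`.  The von Neumann algebra of `U` acts on such an algebra.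
-/

open Filter Topology

namespace Pool.Agent.H25FA

open scoped InnerProductSpace

variable {G : Type*} [Group G] {H : Type*} [NormedAddCommGroup H] [InnerProductSpace ℂ H]

/-- The coefficient function `s ↦ ⟨U(s) ξ, η⟩` (the inner product of Mathlib is linear in its
second variable). -/
noncomputable def coef (U : G → H →L[ℂ] H) (ξ η : H) (s : G) : ℂ := inner ℂ η (U s ξ)

/-- The commutative normed algebra `A` is, by means of `ι`, the algebra of all coefficient functions
`s ↦ ⟨U(s) ξ, η⟩`, with pointwise operations and the norm `‖u‖ = inf ‖ξ‖ ‖η‖` over all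
representations `u = ⟨U(·) ξ, η⟩`. -/
structure CoefAlg (U : G → H →L[ℂ] H) {A : Type*} [NonUnitalNormedCommRing A] [NormedSpace ℂ A]
    (ι : A → G → ℂ) : Prop where
  inj : Function.Injective ι
  add : ∀ (a b : A) (s : G), ι (a + b) s = ι a s + ι b s
  smul : ∀ (c : ℂ) (a : A) (s : G), ι (c • a) s = c * ι a s
  mul : ∀ (a b : A) (s : G), ι (a * b) s = ι a s * ι b s
  range : Set.range ι = {u | ∃ ξ η : H, u = coef U ξ η}
  norm : ∀ a : A, ‖a‖ = sInf {r : ℝ | ∃ ξ η : H, ι a = coef U ξ η ∧ r = ‖ξ‖ * ‖η‖}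

variable {U : G → H →L[ℂ] H}

section alg

variable {A : Type*} [NonUnitalNormedCommRing A] [NormedSpace ℂ A] {ι : A → G → ℂ}

theorem CoefAlg.exists_coef (h : CoefAlg U ι) (a : A) : ∃ ξ η : H, ι a = coef U ξ η := by
  have : ι a ∈ Set.range ι := ⟨a, rfl⟩
  rw [h.range] at this
  exact this

theorem CoefAlg.exists_mem (h : CoefAlg U ι) (ξ η : H) :
    ∃ a : A, ι a = coef U ξ η ∧ ‖a‖ ≤ ‖ξ‖ * ‖η‖ := by
  have : coef U ξ η ∈ Set.range ι := by rw [h.range]; exact ⟨ξ, η, rfl⟩
  obtain ⟨a, ha⟩ := this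
  refine ⟨a, ha, ?_⟩
  rw [h.norm]
  refine csInf_le ⟨0, ?_⟩ ⟨ξ, η, ha, rfl⟩
  rintro r ⟨ξ, η, -, rfl⟩
  positivity

theorem CoefAlg.norm_le_of (h : CoefAlg U ι) {a : A} {ξ η : H} (ha : ι a = coef U ξ η) :
    ‖a‖ ≤ ‖ξ‖ * ‖η‖ := by
  rw [h.norm]
  refine csInf_le ⟨0, ?_⟩ ⟨ξ, η, ha, rfl⟩
  rintro r ⟨ξ, η, -, rfl⟩
  positivity

theorem CoefAlg.le_norm (h : CoefAlg U ι) {a : A} {t : ℝ}
    (ht : ∀ ξ η : H, ι a = coef U ξ η → t ≤ ‖ξ‖ * ‖η‖) : t ≤ ‖a‖ := by
  rw [h.norm]
  obtain ⟨ξ, η, ha⟩ := h.exists_coef a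
  refine le_csInf ⟨_, ξ, η, ha, rfl⟩ ?_
  rintro r ⟨ξ, η, hξ, rfl⟩
  exact ht ξ η hξ

end alg

/-! ### The von Neumann algebra -/

/-- `U` is a unitary representation. -/
structure IsURep (U : G → H →L[ℂ] H) : Prop where
  one : U 1 = 1
  mul : ∀ s t, U (s * t) = U s * U t
  adj : ∀ s ξ η, inner ℂ (U s ξ) η = inner ℂ ξ (U s⁻¹ η)

theorem IsURep.adj' (hU : IsURep U) (s : G) (ξ η : H) :
    inner ℂ ξ (U s η) = inner ℂ (U s⁻¹ ξ) η := by
  rw [hU.adj, inv_inv]

theorem IsURep.norm (hU : IsURep U) (s : G) (ξ : H) : ‖U s ξ‖ = ‖ξ‖ := by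
  have h1 : inner ℂ (U s ξ) (U s ξ) = inner ℂ ξ ξ := by
    rw [hU.adj, ← ContinuousLinearMap.mul_apply, ← hU.mul, inv_mul_cancel, hU.one,
      ContinuousLinearMap.one_apply]
  rw [inner_self_eq_norm_sq_to_K, inner_self_eq_norm_sq_to_K] at h1
  have h2 : ‖U s ξ‖ ^ 2 = ‖ξ‖ ^ 2 := by exact_mod_cast h1
  exact (sq_eq_sq₀ (norm_nonneg _) (norm_nonneg _)).1 h2

/-- the family of the `ξ i`, `η i` is null: `∑ ⟨U(s) ξ i, η i⟩ = 0` for all `s` -/
def Null (U : G → H →L[ℂ] H) (n : ℕ) (ξ η : Fin n → H) : Prop :=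
  ∀ s, ∑ i, inner ℂ (η i) (U s (ξ i)) = 0

/-- `T` kills the null families -/
def Kills (U : G → H →L[ℂ] H) (T : H →L[ℂ] H) : Prop :=
  ∀ (n : ℕ) (ξ η : Fin n → H), Null U n ξ η → ∑ i, inner ℂ (η i) (T (ξ i)) = 0

theorem kills_U (s : G) : Kills U (U s) := fun _ _ _ h => h s

theorem Kills.add {T S : H →L[ℂ] H} (hT : Kills U T) (hS : Kills U S) : Kills U (T + S) := by
  intro n ξ η h
  have h1 := hT n ξ η h
  have h2 := hS n ξ η h
  simp only [ContinuousLinearMap.add_apply, inner_add_right, Finset.sum_add_distrib, h1, h2,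
    add_zero]

theorem Kills.smul {T : H →L[ℂ] H} (hT : Kills U T) (c : ℂ) : Kills U (c • T) := by
  intro n ξ η h
  have h1 := hT n ξ η h
  simp only [ContinuousLinearMap.smul_apply, inner_smul_right, ← Finset.mul_sum, h1, mul_zero]

theorem Kills.zero : Kills U 0 := by
  intro n ξ η _
  simp

theorem null_left (hU : IsURep U) {T : H →L[ℂ] H} (hT : Kills U T) {n : ℕ} {ξ η : Fin n → H}
    (h : Null U n ξ η) : Null U n (fun i => T (ξ i)) η := by
  intro t
  have h1 : Null U n ξ (fun i => U t⁻¹ (η i)) := by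
    intro s
    have := h (t * s)
    rw [← this]
    refine Finset.sum_congr rfl fun i _ => ?_
    rw [hU.mul, ContinuousLinearMap.mul_apply, hU.adj' t]
  have h2 := hT n _ _ h1
  rw [← h2]
  refine Finset.sum_congr rfl fun i _ => ?_
  rw [hU.adj' t]

theorem Kills.mul (hU : IsURep U) {T S : H →L[ℂ] H} (hT : Kills U T) (hS : Kills U S) :
    Kills U (T * S) := by
  intro n ξ η h
  exact hT n _ _ (null_left hU hS h)

theorem isClosed_kills : IsClosed {T : H →L[ℂ] H | Kills U T} := by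
  have : {T : H →L[ℂ] H | Kills U T} = ⋂ (n : ℕ) (ξ : Fin n → H) (η : Fin n → H)
      (_ : Null U n ξ η), {T : H →L[ℂ] H | ∑ i, inner ℂ (η i) (T (ξ i)) = 0} := by
    ext T
    simp [Kills]
  rw [this]
  refine isClosed_iInter fun n => isClosed_iInter fun ξ => isClosed_iInter fun η =>
    isClosed_iInter fun _ => ?_
  refine isClosed_eq ?_ continuous_const
  refine continuous_finset_sum _ fun i _ => ?_
  exact continuous_const.inner ((ContinuousLinearMap.apply ℂ H (ξ i)).continuous)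

variable [CompleteSpace H]

theorem Kills.star (hU : IsURep U) {T : H →L[ℂ] H} (hT : Kills U T) : Kills U (star T) := by
  intro n ξ η h
  have h1 : Null U n η ξ := by
    intro s
    have h2 := h s⁻¹
    have h3 : ∑ i, inner ℂ (ξ i) (U s (η i)) = starRingEnd ℂ (∑ i, inner ℂ (η i) (U s⁻¹ (ξ i))) := by
      rw [map_sum]
      refine Finset.sum_congr rfl fun i _ => ?_
      rw [inner_conj_symm, hU.adj s⁻¹, inv_inv]
    rw [h3, h2, map_zero]
  have h2 := hT n η ξ h1
  have h3 : ∑ i, inner ℂ (η i) ((Star.star T : H →L[ℂ] H) (ξ i)) =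
      starRingEnd ℂ (∑ i, inner ℂ (ξ i) (T (η i))) := by
    rw [map_sum]
    refine Finset.sum_congr rfl fun i _ => ?_
    rw [inner_conj_symm, ContinuousLinearMap.star_eq_adjoint, ContinuousLinearMap.adjoint_inner_right]
  rw [h3, h2, map_zero]

/-- the von Neumann algebra of `U` -/
noncomputable def VN (hU : IsURep U) : StarSubalgebra ℂ (H →L[ℂ] H) where
  carrier := {T | Kills U T}
  mul_mem' := fun hT hS => Kills.mul hU hT hS
  one_mem' := by
    have := kills_U (U := U) (1 : G)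
    rwa [hU.one] at this
  add_mem' := fun hT hS => hT.add hS
  zero_mem' := Kills.zero
  algebraMap_mem' := by
    intro c
    have := (kills_U (U := U) (1 : G)).smul c
    rw [hU.one] at this
    rw [Algebra.algebraMap_eq_smul_one]
    exact this
  star_mem' := fun hT => Kills.star hU hT

theorem mem_VN (hU : IsURep U) {T : H →L[ℂ] H} : T ∈ VN hU ↔ Kills U T := Iff.rfl

theorem isClosed_VN (hU : IsURep U) : IsClosed (VN hU : Set (H →L[ℂ] H)) := isClosed_kills

/-! ### The functionals -/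

section functional

variable {A : Type*} [NonUnitalNormedCommRing A] [NormedSpace ℂ A] {ι : A → G → ℂ}

omit [CompleteSpace H] in
/-- the functional of an element of the von Neumann algebra -/
theorem exists_functional (h : CoefAlg U ι) {T : H →L[ℂ] H} (hT : Kills U T) :
    ∃ φ : A →L[ℂ] ℂ, ‖φ‖ ≤ ‖T‖ ∧
      ∀ (a : A) (ξ η : H), ι a = coef U ξ η → φ a = inner ℂ η (T ξ) := by
  choose X Y hXY using h.exists_coef
  have key : ∀ (n : ℕ) (c : Fin n → ℂ) (a : Fin n → A) (ξ η : Fin n → H),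
      (∀ i, ι (a i) = coef U (ξ i) (η i)) → (∀ s, ∑ i, c i * ι (a i) s = 0) →
      ∑ i, c i * inner ℂ (η i) (T (ξ i)) = 0 := by
    intro n c a ξ η h1 h2
    have h3 : Null U n (fun i => c i • ξ i) η := by
      intro s
      rw [← h2 s]
      refine Finset.sum_congr rfl fun i _ => ?_
      rw [map_smul, inner_smul_right, h1 i, coef]
    have h4 := hT n _ _ h3
    rw [← h4]
    refine Finset.sum_congr rfl fun i _ => ?_
    rw [map_smul, inner_smul_right]
  have hwd : ∀ (a : A) (ξ η : H), ι a = coef U ξ η → inner ℂ (Y a) (T (X a)) = inner ℂ η (T ξ) := by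
    intro a ξ η ha
    have := key 2 ![1, -1] ![a, a] ![X a, ξ] ![Y a, η]
      (by intro i; fin_cases i; exacts [hXY a, ha]) (by intro s; simp [Fin.sum_univ_two])
    simp only [Fin.sum_univ_two, Matrix.cons_val_zero, Matrix.cons_val_one, one_mul, neg_one_mul] at this
    linear_combination this
  have hadd : ∀ a b : A, inner ℂ (Y (a + b)) (T (X (a + b))) =
      inner ℂ (Y a) (T (X a)) + inner ℂ (Y b) (T (X b)) := by
    intro a b
    have := key 3 ![1, -1, -1] ![a + b, a, b] ![X (a + b), X a, X b] ![Y (a + b), Y a, Y b]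
      (by intro i; fin_cases i; exacts [hXY _, hXY _, hXY _])
      (by intro s; simp [Fin.sum_univ_three, h.add])
    simp only [Fin.sum_univ_three, Matrix.cons_val_zero, Matrix.cons_val_one, one_mul,
      neg_one_mul] at this
    have e : ∀ (x y z : H), (![x, y, z] : Fin 3 → H) 2 = z := fun _ _ _ => rfl
    have e' : ∀ (x y z : ℂ), (![x, y, z] : Fin 3 → ℂ) 2 = z := fun _ _ _ => rfl
    rw [e, e, e'] at this
    linear_combination this
  have hsmul : ∀ (c : ℂ) (a : A), inner ℂ (Y (c • a)) (T (X (c • a))) =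
      c * inner ℂ (Y a) (T (X a)) := by
    intro c a
    have := key 2 ![1, -c] ![c • a, a] ![X (c • a), X a] ![Y (c • a), Y a]
      (by intro i; fin_cases i; exacts [hXY _, hXY _]) (by intro s; simp [Fin.sum_univ_two, h.smul])
    simp only [Fin.sum_univ_two, Matrix.cons_val_zero, Matrix.cons_val_one, one_mul] at this
    linear_combination this
  have hbd : ∀ a : A, ‖inner ℂ (Y a) (T (X a))‖ ≤ ‖T‖ * ‖a‖ := by
    intro a
    rcases (norm_nonneg T).eq_or_lt with h0 | h0
    · have hT0 : T = 0 := norm_eq_zero.1 h0.symm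
      rw [hT0]; simp
    · rw [← div_le_iff₀' h0]
      refine h.le_norm fun ξ η ha => ?_
      rw [hwd a ξ η ha, div_le_iff₀' h0]
      calc ‖inner ℂ η (T ξ)‖ ≤ ‖η‖ * ‖T ξ‖ := norm_inner_le_norm _ _
        _ ≤ ‖η‖ * (‖T‖ * ‖ξ‖) := by gcongr; exact T.le_opNorm ξ
        _ = ‖T‖ * (‖ξ‖ * ‖η‖) := by ring
  refine ⟨LinearMap.mkContinuous { toFun := fun a => inner ℂ (Y a) (T (X a)), map_add' := hadd, map_smul' := hsmul } ‖T‖ hbd,
    LinearMap.mkContinuous_norm_le _ (norm_nonneg _) _, fun a ξ η ha => hwd a ξ η ha⟩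

end functional

end Pool.Agent.H25FA
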