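import Mathlib
import Pool.Agent.H25FA.VN
import Pool.Agent.H25FA.Orth

set_option autoImplicit false
set_option linter.unusedSectionVars false
set_option linter.deprecated false

/-!
# Block sums in an infinite-dimensional von Neumann algebra of a unitary representation
-/

open Filter Topology

namespace Pool.Agent.H25FA

/-- limits of bounded sequences of functionals along an ultrafilter -/
theorem exists_limit_functional {E : Type*} [SeminormedAddCommGroup E] [NormedSpace ℂ E]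
    (φ : ℕ → E →L[ℂ] ℂ) (C : ℝ) (hC : ∀ n, ‖φ n‖ ≤ C) (𝒰 : Ultrafilter ℕ) :
    ∃ D : E →L[ℂ] ℂ, ∀ a : E, Tendsto (fun n => φ n a) 𝒰 (𝓝 (D a)) := by
  have hC0 : 0 ≤ C := (norm_nonneg _).trans (hC 0)
  have hle : ∀ (a : E) n, ‖φ n a‖ ≤ C * ‖a‖ := fun a n =>
    ((φ n).le_opNorm _).trans (mul_le_mul_of_nonneg_right (hC n) (norm_nonneg _))
  have h1 : ∀ a : E, ∃ z : ℂ, Tendsto (fun n => φ n a) 𝒰 (𝓝 z) := by
    intro a
    have hK : IsCompact (Metric.closedBall (0 : ℂ) (C * ‖a‖)) := isCompact_closedBall _ _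
    have h2 : (𝒰.map fun n => φ n a : Ultrafilter ℂ) ≤
        (𝓟 (Metric.closedBall (0 : ℂ) (C * ‖a‖)) : Filter ℂ) := by
      rw [Ultrafilter.coe_map, le_principal_iff, mem_map]
      refine univ_mem' fun n => ?_
      simp only [Set.mem_preimage, mem_closedBall_zero_iff]
      exact hle a n
    obtain ⟨z, -, hz⟩ := hK.ultrafilter_le_nhds _ h2
    exact ⟨z, hz⟩
  choose L hL using h1
  have hadd : ∀ f g, L (f + g) = L f + L g := fun f g =>
    tendsto_nhds_unique (hL (f + g)) (by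
      have := (hL f).add (hL g)
      simpa only [map_add] using this)
  have hsmul : ∀ (c : ℂ) f, L (c • f) = c • L f := fun c f =>
    tendsto_nhds_unique (hL (c • f)) (by
      have := (hL f).const_smul c
      simpa only [map_smul] using this)
  have hbd : ∀ f, ‖L f‖ ≤ C * ‖f‖ := by
    intro f
    exact le_of_tendsto (hL f).norm (Eventually.of_forall fun n => hle f n)
  exact ⟨LinearMap.mkContinuous { toFun := L, map_add' := hadd, map_smul' := hsmul } C hbd, hL⟩

variable {G : Type*} [Group G] {H : Type*} [NormedAddCommGroup H] [InnerProductSpace ℂ H]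
  [CompleteSpace H] {U : G → H →L[ℂ] H}

/-- sums of squares of orthogonal self-adjoint contractions are contractions -/
theorem norm_sum_sq_le {g : ℕ → H →L[ℂ] H} (hsa : ∀ n, IsSelfAdjoint (g n))
    (hn : ∀ n, ‖g n‖ ≤ 1) (ho : ∀ m n, m ≠ n → g m * g n = 0) (F : Finset ℕ) :
    ‖∑ n ∈ F, g n * g n‖ ≤ 1 := by
  refine ContinuousLinearMap.opNorm_le_bound _ zero_le_one fun ζ => ?_
  have hadj : ∀ n (x y : H), inner ℂ (g n x) y = inner ℂ x (g n y) := by
    intro n x y
    have := (hsa n).star_eq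
    rw [ContinuousLinearMap.star_eq_adjoint] at this
    conv_lhs => rw [← this]
    rw [ContinuousLinearMap.adjoint_inner_left]
  have horth : ∀ m n, m ≠ n → ∀ x y : H, inner ℂ (g m x) (g n y) = 0 := by
    intro m n hmn x y
    rw [hadj]
    have : g m (g n y) = (g m * g n) y := rfl
    rw [this, ho m n hmn]
    simp
  set X : ℝ := ∑ n ∈ F, ‖g n ζ‖ ^ 2 with hX
  set η : H := (∑ n ∈ F, g n * g n) ζ with hη
  have hη' : η = ∑ n ∈ F, g n (g n ζ) := by
    rw [hη]; simp [ContinuousLinearMap.sum_apply]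
  have h1 : inner ℂ ζ η = (X : ℂ) := by
    rw [hη', inner_sum, hX]
    push_cast
    refine Finset.sum_congr rfl fun n _ => ?_
    rw [← hadj, inner_self_eq_norm_sq_to_K]; norm_cast
  have h2 : ‖η‖ ^ 2 = ∑ n ∈ F, ‖g n (g n ζ)‖ ^ 2 := by
    have h3 : inner ℂ η η = ((∑ n ∈ F, ‖g n (g n ζ)‖ ^ 2 : ℝ) : ℂ) := by
      conv_lhs => rw [hη']
      rw [sum_inner]
      push_cast
      refine Finset.sum_congr rfl fun n hnF => ?_
      rw [inner_sum, Finset.sum_eq_single n]
      · rw [inner_self_eq_norm_sq_to_K]; norm_cast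
      · intro m _ hmn
        exact horth n m hmn.symm _ _
      · intro h; exact absurd hnF h
    have h4 := congrArg Complex.re h3
    rw [Complex.ofReal_re] at h4
    rw [← h4]
    exact (inner_self_eq_norm_sq (𝕜 := ℂ) η).symm
  have h3 : ‖η‖ ^ 2 ≤ X := by
    rw [h2, hX]
    refine Finset.sum_le_sum fun n _ => ?_
    have h4 : ‖g n (g n ζ)‖ ≤ 1 * ‖g n ζ‖ := (g n).le_of_opNorm_le (hn n) _
    rw [one_mul] at h4
    exact pow_le_pow_left₀ (norm_nonneg _) h4 2
  have h4 : X ≤ ‖ζ‖ * ‖η‖ := by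
    have h5 : ‖inner ℂ ζ η‖ ≤ ‖ζ‖ * ‖η‖ := norm_inner_le_norm _ _
    rw [h1] at h5
    have hX0 : 0 ≤ X := Finset.sum_nonneg fun _ _ => by positivity
    rwa [Complex.norm_real, Real.norm_of_nonneg hX0] at h5
  rw [one_mul]
  by_contra hcon
  push Not at hcon
  nlinarith [norm_nonneg η, norm_nonneg ζ]

/-- blocks in an infinite-dimensional von Neumann algebra -/
theorem blocks (hU : IsURep U) (hinf : ¬ FiniteDimensional ℂ (VN hU)) :
    ∃ ξ : ℕ → H, (∀ n, ‖ξ n‖ = 1) ∧ ∀ E : Set ℕ, ∃ T : ℕ → (H →L[ℂ] H),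
      (∀ N, Kills U (T N) ∧ ‖T N‖ ≤ 1) ∧
      ∀ n N, n < N → (n ∈ E → 1 / 4 ≤ (inner ℂ (ξ n) (T N (ξ n)) : ℂ).re) ∧
        (n ∉ E → T N (ξ n) = 0) := by
  classical
  have : IsClosed (VN hU : Set (H →L[ℂ] H)) := isClosed_VN hU
  obtain ⟨g₀, h1, h2⟩ := hasOrth (B := VN hU) hinf
  -- normalise
  set g : ℕ → H →L[ℂ] H := fun n => ((‖(g₀ n : H →L[ℂ] H)‖⁻¹ : ℝ) : ℂ) • (g₀ n : H →L[ℂ] H) with hg
  have hg0 : ∀ n, (g₀ n : H →L[ℂ] H) ≠ 0 := fun n h => (h1 n).1 (Subtype.ext h)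
  have hnorm : ∀ n, ‖g n‖ = 1 := by
    intro n
    rw [hg]; simp only
    rw [norm_smul, Complex.norm_real, norm_inv, norm_norm, inv_mul_cancel₀ (norm_ne_zero_iff.2 (hg0 n))]
  have hsa : ∀ n, IsSelfAdjoint (g n) := by
    intro n
    have h3 : IsSelfAdjoint (g₀ n : H →L[ℂ] H) := by
      have := congrArg Subtype.val (h1 n).2.star_eq
      exact this
    rw [hg]; simp only
    rw [isSelfAdjoint_iff, star_smul, h3.star_eq]
    congr 1
    exact Complex.conj_ofReal _
  have ho : ∀ m n, m ≠ n → g m * g n = 0 := by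
    intro m n hmn
    have h3 : (g₀ m : H →L[ℂ] H) * (g₀ n : H →L[ℂ] H) = 0 := by
      have := congrArg Subtype.val (h2 m n hmn)
      exact this
    rw [hg]; simp only
    rw [smul_mul_smul_comm, h3, smul_zero]
  have hK : ∀ n, Kills U (g n) := fun n => Kills.smul (g₀ n).2 _
  have hsq : ∀ n, ‖g n * g n‖ = 1 := by
    intro n
    have := CStarRing.norm_star_mul_self (x := g n)
    rw [(hsa n).star_eq, hnorm, mul_one] at this
    exact this
  -- the vectors
  have hvec : ∀ n, ∃ ξ : H, ‖ξ‖ = 1 ∧ (∃ ζ : H, ξ = g n ζ) ∧ 1 / 2 ≤ ‖g n ξ‖ := by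
    intro n
    have h3 : ∃ ζ : H, (1 / 2 : ℝ) * ‖ζ‖ < ‖(g n * g n) ζ‖ := by
      by_contra hcon
      push Not at hcon
      have := ContinuousLinearMap.opNorm_le_bound (g n * g n) (by norm_num : (0:ℝ) ≤ 1 / 2) hcon
      rw [hsq] at this
      norm_num at this
    obtain ⟨ζ, hζ⟩ := h3
    have h4 : (g n * g n) ζ = g n (g n ζ) := rfl
    rw [h4] at hζ
    have h5 : g n ζ ≠ 0 := by
      intro h0
      rw [h0, map_zero, norm_zero] at hζ
      exact absurd hζ (not_lt.2 (by positivity))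
    have h6 : 0 < ‖g n ζ‖ := norm_pos_iff.2 h5
    have h7 : ‖g n ζ‖ ≤ ‖ζ‖ := by
      have := (g n).le_opNorm ζ
      rwa [hnorm, one_mul] at this
    refine ⟨((‖g n ζ‖⁻¹ : ℝ) : ℂ) • g n ζ, ?_, ⟨((‖g n ζ‖⁻¹ : ℝ) : ℂ) • ζ, by rw [map_smul]⟩, ?_⟩
    · rw [norm_smul, Complex.norm_real, norm_inv, norm_norm, inv_mul_cancel₀ h6.ne']
    · rw [map_smul, norm_smul, Complex.norm_real, norm_inv, norm_norm, ← div_eq_inv_mul,
        le_div_iff₀ h6]
      nlinarith
  choose ξ hξ1 hξ2 hξ3 using hvec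
  have hgξ : ∀ m n, m ≠ n → g m (ξ n) = 0 := by
    intro m n hmn
    obtain ⟨ζ, hζ⟩ := hξ2 n
    rw [hζ]
    have : g m (g n ζ) = (g m * g n) ζ := rfl
    rw [this, ho m n hmn]; rfl
  refine ⟨ξ, hξ1, fun E => ⟨fun N => ∑ n ∈ (Finset.range N).filter (· ∈ E), g n * g n,
    fun N => ⟨?_, norm_sum_sq_le hsa (fun n => (hnorm n).le) ho _⟩, ?_⟩⟩
  · have : (∑ n ∈ (Finset.range N).filter (· ∈ E), g n * g n) ∈ VN hU :=
      sum_mem fun n _ => Kills.mul hU (hK n) (hK n)
    exact this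
  · intro n N hnN
    have hT : (∑ m ∈ (Finset.range N).filter (· ∈ E), g m * g m) (ξ n) =
        ∑ m ∈ (Finset.range N).filter (· ∈ E), g m (g m (ξ n)) := by
      simp [ContinuousLinearMap.sum_apply]
    constructor
    · intro hnE
      simp only
      rw [hT, Finset.sum_eq_single n]
      · have hadj : inner ℂ (ξ n) (g n (g n (ξ n))) = inner ℂ (g n (ξ n)) (g n (ξ n)) := by
          have := (hsa n).star_eq
          rw [ContinuousLinearMap.star_eq_adjoint] at this
          conv_rhs => rw [← this]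
          rw [ContinuousLinearMap.adjoint_inner_left, this]
        rw [hadj, inner_self_eq_norm_sq_to_K]
        have h5 : ((‖g n (ξ n)‖ : ℂ) ^ 2).re = ‖g n (ξ n)‖ ^ 2 := by
          rw [← Complex.ofReal_pow, Complex.ofReal_re]
        have h6 := hξ3 n
        have h7 : (1 / 4 : ℝ) ≤ ‖g n (ξ n)‖ ^ 2 := by nlinarith
        exact h7.trans_eq h5.symm
      · intro m _ hmn
        rw [hgξ m n hmn, map_zero]
      · intro h
        exact absurd (Finset.mem_filter.2 ⟨Finset.mem_range.2 hnN, hnE⟩) h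
    · intro hnE
      simp only
      rw [hT]
      refine Finset.sum_eq_zero fun m hm => ?_
      have : m ≠ n := by
        rintro rfl
        exact hnE (Finset.mem_filter.1 hm).2
      rw [hgξ m n this, map_zero]

end Pool.Agent.H25FA
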