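import Mathlib
import Pool.Agent.H25FA.Core

set_option autoImplicit false
set_option linter.unusedSectionVars false
set_option linter.deprecated false

/-!
# Sums of squares of almost orthogonal self-adjoint operators
-/

open Filter Topology

namespace Pool.Agent.H25FA

variable {H : Type*} [NormedAddCommGroup H] [InnerProductSpace ℂ H] [CompleteSpace H]

theorem inner_sa {T : H →L[ℂ] H} (hT : IsSelfAdjoint T) (x y : H) :
    inner ℂ (T x) y = inner ℂ x (T y) := by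
  have := hT.star_eq
  rw [ContinuousLinearMap.star_eq_adjoint] at this
  conv_lhs => rw [← this]
  rw [ContinuousLinearMap.adjoint_inner_left]

/-- sums of squares of almost orthogonal self-adjoint operators are bounded -/
theorem norm_sum_sq_le' {D : ℕ → H →L[ℂ] H} (hsa : ∀ n, IsSelfAdjoint (D n))
    (hn : ∀ n, ‖D n‖ ≤ 2) (c : ℕ → ℝ) (hc0 : ∀ n, 0 ≤ c n)
    (hc : ∀ N, ∑ n ∈ Finset.range N, c n ≤ 1)
    (ho : ∀ m n, m ≠ n → ‖D m * D n‖ ≤ c m * c n) (N : ℕ) :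
    ‖∑ n ∈ Finset.range N, D n * D n‖ ≤ 5 := by
  refine ContinuousLinearMap.opNorm_le_bound _ (by norm_num) fun ζ => ?_
  set X : ℝ := ∑ n ∈ Finset.range N, ‖D n ζ‖ ^ 2 with hX
  set η : H := (∑ n ∈ Finset.range N, D n * D n) ζ with hη
  have hη' : η = ∑ n ∈ Finset.range N, D n (D n ζ) := by
    rw [hη]; simp
  have hD2 : ∀ n (x : H), ‖D n x‖ ≤ 2 * ‖x‖ := fun n x => (D n).le_of_opNorm_le (hn n) _
  have h1 : inner ℂ ζ η = (X : ℂ) := by
    rw [hη', inner_sum, hX]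
    push_cast
    refine Finset.sum_congr rfl fun n _ => ?_
    rw [← inner_sa (hsa n), inner_self_eq_norm_sq_to_K]; norm_cast
  have hterm : ∀ m n, ‖inner ℂ (D m (D m ζ)) (D n (D n ζ))‖ ≤
      (if m = n then 4 * ‖D m ζ‖ ^ 2 else 0) + 4 * ‖ζ‖ ^ 2 * (c m * c n) := by
    intro m n
    have hcc : 0 ≤ 4 * ‖ζ‖ ^ 2 * (c m * c n) := by
      have := hc0 m; have := hc0 n; positivity
    split_ifs with hmn
    · subst hmn
      have h2 : ‖inner ℂ (D m (D m ζ)) (D m (D m ζ))‖ ≤ ‖D m (D m ζ)‖ * ‖D m (D m ζ)‖ :=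
        norm_inner_le_norm _ _
      have h3 := hD2 m (D m ζ)
      have h4 : ‖D m (D m ζ)‖ * ‖D m (D m ζ)‖ ≤ (2 * ‖D m ζ‖) * (2 * ‖D m ζ‖) :=
        mul_le_mul h3 h3 (norm_nonneg _) (by positivity)
      nlinarith
    · rw [zero_add, inner_sa (hsa m)]
      have h2 : D m (D n (D n ζ)) = (D m * D n) (D n ζ) := rfl
      rw [h2]
      calc ‖inner ℂ (D m ζ) ((D m * D n) (D n ζ))‖ ≤ ‖D m ζ‖ * ‖(D m * D n) (D n ζ)‖ :=
            norm_inner_le_norm _ _
        _ ≤ (2 * ‖ζ‖) * ((c m * c n) * (2 * ‖ζ‖)) := by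
            refine mul_le_mul (hD2 m ζ) ?_ (norm_nonneg _) (by positivity)
            refine ((D m * D n).le_of_opNorm_le (ho m n hmn) _).trans ?_
            exact mul_le_mul_of_nonneg_left (hD2 n ζ) (mul_nonneg (hc0 m) (hc0 n))
        _ = 4 * ‖ζ‖ ^ 2 * (c m * c n) := by ring
  have h2 : ‖η‖ ^ 2 ≤ 4 * X + 4 * ‖ζ‖ ^ 2 := by
    have h3 : ‖η‖ ^ 2 = ‖inner ℂ η η‖ := by
      rw [inner_self_eq_norm_sq_to_K, norm_pow]; norm_cast
      rw [abs_of_nonneg (norm_nonneg _)]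
    have h4 : inner ℂ η η = ∑ m ∈ Finset.range N, ∑ n ∈ Finset.range N,
        inner ℂ (D m (D m ζ)) (D n (D n ζ)) := by
      conv_lhs => rw [hη']
      rw [sum_inner]
      refine Finset.sum_congr rfl fun m _ => ?_
      rw [inner_sum]
    rw [h3, h4]
    calc _ ≤ ∑ m ∈ Finset.range N, ∑ n ∈ Finset.range N,
          ((if m = n then 4 * ‖D m ζ‖ ^ 2 else 0) + 4 * ‖ζ‖ ^ 2 * (c m * c n)) := by
          refine (norm_sum_le _ _).trans (Finset.sum_le_sum fun m _ => ?_)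
          exact (norm_sum_le _ _).trans (Finset.sum_le_sum fun n _ => hterm m n)
      _ = 4 * X + 4 * ‖ζ‖ ^ 2 * ((∑ n ∈ Finset.range N, c n) * (∑ n ∈ Finset.range N, c n)) := by
          rw [Finset.sum_mul_sum, hX, Finset.mul_sum, Finset.mul_sum, ← Finset.sum_add_distrib]
          refine Finset.sum_congr rfl fun m hm => ?_
          rw [Finset.sum_add_distrib, Finset.mul_sum, Finset.sum_ite_eq, if_pos hm]
      _ ≤ 4 * X + 4 * ‖ζ‖ ^ 2 := by
          have h5 := hc N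
          have h6 : 0 ≤ ∑ n ∈ Finset.range N, c n := Finset.sum_nonneg fun n _ => hc0 n
          have h7 : (∑ n ∈ Finset.range N, c n) * (∑ n ∈ Finset.range N, c n) ≤ 1 := by nlinarith
          have h8 : 0 ≤ 4 * ‖ζ‖ ^ 2 := by positivity
          nlinarith
  have h4 : X ≤ ‖ζ‖ * ‖η‖ := by
    have h5 : ‖inner ℂ ζ η‖ ≤ ‖ζ‖ * ‖η‖ := norm_inner_le_norm _ _
    rw [h1] at h5
    have hX0 : 0 ≤ X := Finset.sum_nonneg fun _ _ => by positivity
    rwa [Complex.norm_real, Real.norm_of_nonneg hX0] at h5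
  by_contra hcon
  push Not at hcon
  nlinarith [norm_nonneg η, norm_nonneg ζ]

end Pool.Agent.H25FA
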