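import Mathlib
import Pool.Agent.H434R3.Arens

set_option autoImplicit false

/-!
# A criterion for nilpotent elements in the second dual of a commutative Banach algebra
-/

open Filter Topology

namespace Pool.Agent.H25FA

open H434R3.Arens

variable {A : Type*} [NonUnitalNormedCommRing A] [NormedSpace ℂ A]

/-- limits of bounded sequences along an ultrafilter in the second dual -/
theorem exists_limit (w : ℕ → A) (C : ℝ) (hC : ∀ n, ‖w n‖ ≤ C) (𝒰 : Ultrafilter ℕ) :
    ∃ D : Bidual A, ∀ f : A →L[ℂ] ℂ, Tendsto (fun n => f (w n)) 𝒰 (𝓝 (ev D f)) := by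
  have hC0 : 0 ≤ C := (norm_nonneg _).trans (hC 0)
  have h1 : ∀ f : A →L[ℂ] ℂ, ∃ z : ℂ, Tendsto (fun n => f (w n)) 𝒰 (𝓝 z) := by
    intro f
    have hK : IsCompact (Metric.closedBall (0 : ℂ) (‖f‖ * C)) := isCompact_closedBall _ _
    have h2 : (𝒰.map fun n => f (w n) : Ultrafilter ℂ) ≤
        (𝓟 (Metric.closedBall (0 : ℂ) (‖f‖ * C)) : Filter ℂ) := by
      rw [Ultrafilter.coe_map, le_principal_iff, mem_map]
      refine univ_mem' fun n => ?_
      simp only [Set.mem_preimage, mem_closedBall_zero_iff]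
      exact (f.le_opNorm _).trans (mul_le_mul_of_nonneg_left (hC n) (norm_nonneg _))
    obtain ⟨z, -, hz⟩ := hK.ultrafilter_le_nhds _ h2
    exact ⟨z, hz⟩
  choose L hL using h1
  have hadd : ∀ f g, L (f + g) = L f + L g := fun f g =>
    tendsto_nhds_unique (hL (f + g)) ((hL f).add (hL g))
  have hsmul : ∀ (c : ℂ) f, L (c • f) = c • L f := fun c f =>
    tendsto_nhds_unique (hL (c • f)) ((hL f).const_smul c)
  have hbd : ∀ f, ‖L f‖ ≤ C * ‖f‖ := by
    intro f
    refine le_of_tendsto (hL f).norm (Eventually.of_forall fun n => ?_)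
    rw [mul_comm]
    exact (f.le_opNorm _).trans (mul_le_mul_of_nonneg_left (hC n) (norm_nonneg _))
  exact ⟨LinearMap.mkContinuous { toFun := L, map_add' := hadd, map_smul' := hsmul } C hbd, hL⟩

variable [IsScalarTower ℂ A A] [SMulCommClass ℂ A A]

/-- **Criterion.** If a commutative normed algebra contains a bounded sequence `w` which does not
tend weakly to zero, with `‖w m * w n‖ → 0` as `n → ∞` for every `m`, then its second dual contains
a nonzero `D` with `D □ Ψ □ D = 0` for all `Ψ`. -/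
theorem crit (w : ℕ → A) (C : ℝ) (hC : ∀ n, ‖w n‖ ≤ C)
    (hw : ∀ m, Tendsto (fun n => ‖w m * w n‖) atTop (𝓝 0)) (φ : A →L[ℂ] ℂ) (c : ℝ) (hc : 0 < c)
    (hφ : ∀ n, c ≤ ‖φ (w n)‖) : ∃ D : Bidual A, D ≠ 0 ∧ ∀ Ψ : Bidual A, D * Ψ * D = 0 := by
  set 𝒰 : Ultrafilter ℕ := hyperfilter ℕ with h𝒰
  have hle : (𝒰 : Filter ℕ) ≤ atTop := by
    rw [h𝒰, ← Nat.cofinite_eq_atTop]; exact hyperfilter_le_cofinite
  obtain ⟨D, hD⟩ := exists_limit w C hC 𝒰
  refine ⟨D, ?_, fun Ψ => ?_⟩
  · rintro rfl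
    have h1 := (hD φ).norm
    rw [ev_zero, norm_zero] at h1
    exact absurd (ge_of_tendsto h1 (Eventually.of_forall hφ)) (not_le.2 hc)
  · apply ext_ev
    intro f
    rw [mul_def, mul_def, ev_box, ev_box, ev_zero]
    have h1 : ∀ n, hmod (psi D f) (w n) = 0 := by
      intro n
      ext b
      rw [hmod_apply, psi_apply', zero_apply]
      refine tendsto_nhds_unique (hD (hmod f (w n * b))) ?_
      have h2 : ∀ m, ‖hmod f (w n * b) (w m)‖ ≤ ‖f‖ * ‖b‖ * ‖w n * w m‖ := by
        intro m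
        rw [hmod_apply]
        have h3 : w n * b * w m = b * (w n * w m) := by
          rw [mul_comm (w n) b, mul_assoc]
        rw [h3, mul_assoc]
        exact (f.le_opNorm _).trans (mul_le_mul_of_nonneg_left (norm_mul_le _ _) (norm_nonneg _))
      refine squeeze_zero_norm h2 ?_
      have h4 := ((hw n).const_mul (‖f‖ * ‖b‖)).mono_left hle
      simpa using h4
    refine tendsto_nhds_unique (hD (psi Ψ (psi D f))) ?_
    have h5 : (fun n => (psi Ψ (psi D f)) (w n)) = fun _ => 0 := by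
      funext n
      rw [psi_apply', h1 n, ev_map_zero]
    rw [h5]
    exact tendsto_const_nhds

end Pool.Agent.H25FA
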