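import Mathlib
import Pool.Agent.H25FA.Almost
import Pool.Agent.H25FA.Crit

set_option autoImplicit false
set_option linter.unusedSectionVars false
set_option linter.deprecated false

/-!
# The non-discrete case: a criterion for coefficient algebras
-/

open Filter Topology

namespace Pool.Agent.H25FA

open H434R3.Arens

variable {G : Type*} [Group G] [TopologicalSpace G] {H : Type*} [NormedAddCommGroup H]
  [InnerProductSpace ℂ H] [CompleteSpace H] {U : G → H →L[ℂ] H}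

/-- `t ↦ U(t) P` is norm continuous at `1` -/
def NCont (U : G → H →L[ℂ] H) (P : H →L[ℂ] H) : Prop :=
  ∀ ε : ℝ, 0 < ε → ∀ᶠ t in 𝓝 (1 : G), ‖U t * P - P‖ ≤ ε

theorem small_of_local (hU : IsURep U) [T1Space G] [(𝓝[≠] (1 : G)).NeBot] {P : H →L[ℂ] H}
    (hP : IsSelfAdjoint P) (hP1 : ‖P‖ ≤ 1) (hc : NCont U P) (ε : ℝ) (hε : 0 < ε) :
    ∃ W ∈ 𝓝 (1 : G), ∀ ξ : H, ‖ξ‖ = 1 → (∀ s, s ∉ W → coef U ξ ξ s = 0) → ‖P ξ‖ ≤ ε := by
  classical
  obtain ⟨N, hN⟩ := exists_nat_gt (4 / ε ^ 2)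
  have hN0 : 0 < (N : ℝ) := lt_trans (by positivity) hN
  have hinf : {t : G | ‖U t * P - P‖ ≤ ε / 2}.Infinite :=
    infinite_of_mem_nhds 1 (hc (ε / 2) (by positivity))
  obtain ⟨F, hF, hFc⟩ := hinf.exists_subset_card_eq N
  refine ⟨{x | ∀ t ∈ F, ∀ s ∈ F, t ≠ s → x ≠ t * s⁻¹}, ?_, fun ξ hξ hloc => ?_⟩
  · refine (Finset.eventually_all F).2 fun t _ => (Finset.eventually_all F).2 fun s _ => ?_
    by_cases hts : t = s
    · exact Eventually.of_forall fun x h => absurd hts h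
    · have h1 : (1 : G) ≠ t * s⁻¹ := by
        intro h
        apply hts
        rw [← mul_inv_eq_one.1 h.symm]
      filter_upwards [isOpen_ne.mem_nhds h1] with x hx _
      exact hx
  · set y : H := ∑ t ∈ F, U t⁻¹ ξ with hy
    have hyy : ‖y‖ ^ 2 = N := by
      have h1 : inner ℂ y y = ((N : ℝ) : ℂ) := by
        rw [hy, sum_inner]
        have h2 : ∀ t ∈ F, inner ℂ (U t⁻¹ ξ) (∑ s ∈ F, U s⁻¹ ξ) = (1 : ℂ) := by
          intro t ht
          rw [inner_sum, Finset.sum_eq_single t]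
          · rw [inner_self_eq_norm_sq_to_K, hU.norm, hξ]; simp
          · intro s hs hst
            have h3 : inner ℂ (U t⁻¹ ξ) (U s⁻¹ ξ) = coef U ξ ξ (t * s⁻¹) := by
              rw [coef, hU.mul, hU.adj, inv_inv, ContinuousLinearMap.mul_apply]
            rw [h3]
            apply hloc
            intro h4
            exact h4 t ht s hs (Ne.symm hst) rfl
          · intro h; exact absurd ht h
        rw [Finset.sum_congr rfl h2, Finset.sum_const, hFc]; simp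
      have h4 := congrArg Complex.re h1
      rw [Complex.ofReal_re] at h4
      rw [← h4]
      exact (inner_self_eq_norm_sq (𝕜 := ℂ) y).symm
    have hPy : ‖P y - (N : ℂ) • P ξ‖ ≤ N * (ε / 2) := by
      have h1 : P y - (N : ℂ) • P ξ = ∑ t ∈ F, (P (U t⁻¹ ξ) - P ξ) := by
        rw [Finset.sum_sub_distrib, hy, map_sum, Finset.sum_const, hFc, Nat.cast_smul_eq_nsmul]
      rw [h1]
      refine (norm_sum_le_of_le (n := fun _ => ε / 2) F fun t ht => ?_).trans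
        (by rw [Finset.sum_const, hFc, nsmul_eq_mul])
      have h2 : ‖U t * P - P‖ ≤ ε / 2 := hF ht
      have h3 : star (U t * P - P) = P * U t⁻¹ - P := by
        rw [star_sub, star_mul, hP.star_eq]
        congr 2
        rw [ContinuousLinearMap.star_eq_adjoint]
        refine ContinuousLinearMap.ext fun x => ext_inner_left ℂ fun z => ?_
        rw [ContinuousLinearMap.adjoint_inner_right, hU.adj]
      have h4 : ‖P * U t⁻¹ - P‖ ≤ ε / 2 := by rw [← h3, norm_star]; exact h2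
      have h5 : P (U t⁻¹ ξ) - P ξ = (P * U t⁻¹ - P) ξ := rfl
      rw [h5]
      exact ((P * U t⁻¹ - P).le_of_opNorm_le h4 _).trans (by rw [hξ, mul_one])
    have h1 : (N : ℝ) * ‖P ξ‖ ≤ ‖y‖ + N * (ε / 2) := by
      have h2 : ‖(N : ℂ) • P ξ‖ = N * ‖P ξ‖ := by rw [norm_smul]; simp
      rw [← h2]
      have h3 : (N : ℂ) • P ξ = P y - (P y - (N : ℂ) • P ξ) := by abel
      rw [h3]
      refine (norm_sub_le _ _).trans (add_le_add ?_ hPy)
      have := P.le_of_opNorm_le hP1 y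
      rwa [one_mul] at this
    by_contra hcon
    push Not at hcon
    have h2 : (N : ℝ) * (ε / 2) < ‖y‖ := by nlinarith
    have h3 : ((N : ℝ) * (ε / 2)) ^ 2 < ‖y‖ ^ 2 := pow_lt_pow_left₀ h2 (by positivity) (by norm_num)
    rw [hyy] at h3
    have h4 : 4 < N * ε ^ 2 := by rwa [div_lt_iff₀ (by positivity)] at hN
    nlinarith

/-- the data of one step of the construction -/
structure Cell (H : Type*) [NormedAddCommGroup H] [InnerProductSpace ℂ H] (A : Type*) where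
  /-- the error -/
  δ : ℝ
  /-- the operator -/
  P : H →L[ℂ] H
  /-- the first vector -/
  ξ : H
  /-- the second vector -/
  η : H
  /-- the coefficient -/
  a : A

section

variable {A : Type*} [NonUnitalNormedCommRing A] [NormedSpace ℂ A]

/-- the conditions on one step -/
structure Good (U : G → H →L[ℂ] H) (ι : A → G → ℂ) (x : Cell H A) : Prop where
  δ0 : 0 < x.δ
  δ1 : x.δ ≤ 1 / 16
  kills : Kills U x.P
  sa : IsSelfAdjoint x.P
  le : ‖x.P‖ ≤ 1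
  cont : NCont U x.P
  norm : ‖x.ξ‖ = 1
  near : ‖x.η - x.ξ‖ ≤ 1 / 100
  coef : ι x.a = coef U x.ξ x.η
  one : ∀ᶠ s in 𝓝 (1 : G), ι x.a s = 1
  small : ‖x.P x.ξ‖ ≤ x.δ

/-- the conditions on two steps -/
structure Rel (ι : A → G → ℂ) (x y : Cell H A) : Prop where
  δ : y.δ ≤ x.δ / 2
  PP : ‖y.P * x.P - x.P‖ ≤ y.δ
  Pξ : ‖y.P x.ξ - x.ξ‖ ≤ y.δ
  small : ‖x.P y.ξ‖ ≤ y.δ
  supp : ∀ s, ι y.a s ≠ 0 → ι x.a s = 1

theorem exists_cells (hU : IsURep U) [T1Space G] [(𝓝[≠] (1 : G)).NeBot] {ι : A → G → ℂ}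
    (h : CoefAlg U ι)
    (hcont : ∀ (ξ : H) (ε : ℝ), 0 < ε → ∀ᶠ t in 𝓝 (1 : G), ‖U t ξ - ξ‖ ≤ ε)
    (happ : ∀ W ∈ 𝓝 (1 : G), ∃ P : H →L[ℂ] H, Kills U P ∧ IsSelfAdjoint P ∧ ‖P‖ ≤ 1 ∧
      NCont U P ∧ ∀ (ξ : H) (ε : ℝ), (∀ s ∈ W, ‖U s ξ - ξ‖ ≤ ε) → ‖P ξ - ξ‖ ≤ 2 * ε)
    (hloc : ∀ W ∈ 𝓝 (1 : G), ∃ ξ η : H, ‖ξ‖ = 1 ∧ ‖η - ξ‖ ≤ 1 / 100 ∧
      (∀ s, s ∉ W → coef U ξ ξ s = 0 ∧ coef U ξ η s = 0) ∧ ∀ᶠ s in 𝓝 (1 : G), coef U ξ η s = 1) :
    ∃ x : ℕ → Cell H A, (∀ n, Good U ι (x n)) ∧ ∀ m n, m < n → Rel ι (x m) (x n) := by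
  refine exists_seq_of_forall_finset_exists (fun x => Good U ι x) (fun x y => Rel ι x y)
    fun F hF => ?_
  -- the error
  obtain ⟨δ, ⟨hδ1, hδ2⟩, hδ0⟩ : ∃ δ : ℝ, (δ ≤ 1 / 16 ∧ ∀ x ∈ F, δ ≤ x.δ / 2) ∧ 0 < δ := by
    have h1 : ∀ᶠ δ in 𝓝[>] (0 : ℝ), δ ≤ 1 / 16 ∧ ∀ x ∈ F, δ ≤ x.δ / 2 := by
      refine Eventually.and ?_ ((Finset.eventually_all F).2 fun x hx => ?_)
      · exact nhdsWithin_le_nhds (Iic_mem_nhds (by norm_num : (0 : ℝ) < 1 / 16))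
      · exact nhdsWithin_le_nhds (Iic_mem_nhds
          (by have := (hF x hx).δ0; positivity : (0 : ℝ) < x.δ / 2))
    exact (h1.and self_mem_nhdsWithin).exists
  -- the operator
  have hW1 : {t : G | ∀ x ∈ F, ‖U t * x.P - x.P‖ ≤ δ / 2 ∧ ‖U t x.ξ - x.ξ‖ ≤ δ / 2} ∈ 𝓝 (1 : G) :=
    (Finset.eventually_all F).2 fun x hx =>
      ((hF x hx).cont (δ / 2) (by positivity)).and (hcont x.ξ (δ / 2) (by positivity))
  obtain ⟨P, hPk, hPs, hP1, hPc, hPa⟩ := happ _ hW1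
  -- the vectors
  have hW2 : ∀ x ∈ F, ∃ W ∈ 𝓝 (1 : G), ∀ ξ : H, ‖ξ‖ = 1 → (∀ s, s ∉ W → coef U ξ ξ s = 0) →
      ‖x.P ξ‖ ≤ δ := fun x hx => small_of_local hU (hF x hx).sa (hF x hx).le (hF x hx).cont δ hδ0
  choose! V hV hV' using hW2
  obtain ⟨V', hV1, hV2⟩ := small_of_local hU hPs hP1 hPc δ hδ0
  have hW : {t : G | t ∈ V' ∧ ∀ x ∈ F, t ∈ V x ∧ ι x.a t = 1} ∈ 𝓝 (1 : G) :=
    Eventually.and hV1 ((Finset.eventually_all F).2 fun x hx => Eventually.and (hV x hx) (hF x hx).one)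
  obtain ⟨ξ, η, hξ, hη, hs, ho⟩ := hloc _ hW
  obtain ⟨a, ha, -⟩ := h.exists_mem ξ η
  refine ⟨⟨δ, P, ξ, η, a⟩, ⟨hδ0, hδ1, hPk, hPs, hP1, hPc, hξ, hη, ha, ?_, ?_⟩, fun x hx =>
    ⟨hδ2 x hx, ?_, ?_, ?_, ?_⟩⟩
  · simp only
    rw [ha]; exact ho
  · refine hV2 ξ hξ fun s hs' => (hs s fun h' => hs' h'.1).1
  · simp only
    refine ContinuousLinearMap.opNorm_le_bound _ hδ0.le fun ζ => ?_
    have h1 : (P * x.P - x.P) ζ = P (x.P ζ) - x.P ζ := rfl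
    rw [h1]
    have h2 := hPa (x.P ζ) (δ / 2 * ‖ζ‖) fun s hs => by
      have h3 : U s (x.P ζ) - x.P ζ = (U s * x.P - x.P) ζ := rfl
      rw [h3]
      exact (U s * x.P - x.P).le_of_opNorm_le (hs x hx).1 ζ
    linarith
  · simp only
    have h2 := hPa x.ξ (δ / 2) fun s hs => (hs x hx).2
    linarith
  · exact hV' x hx ξ hξ fun s hs' => (hs s fun h' => hs' (h'.2 x hx).1).1
  · intro s hs'
    simp only at hs'
    by_contra hcon
    apply hs'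
    rw [ha]
    exact (hs s fun h' => hcon (h'.2 x hx).2).2

end

end Pool.Agent.H25FA
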