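import Mathlib
import Pool.Agent.H25FA.Cells

set_option autoImplicit false
set_option linter.unusedSectionVars false
set_option linter.deprecated false

/-!
# The non-discrete case: the nilpotent element
-/

open Filter Topology

namespace Pool.Agent.H25FA

open H434R3.Arens

theorem CoefAlg.map_sub {G : Type*} [Group G] {H : Type*} [NormedAddCommGroup H]
    [InnerProductSpace ℂ H] {U : G → H →L[ℂ] H} {A : Type*} [NonUnitalNormedCommRing A]
    [NormedSpace ℂ A] {ι : A → G → ℂ} (h : CoefAlg U ι) (a b : A) (s : G) :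
    ι (a - b) s = ι a s - ι b s := by
  have h1 : a - b = a + (-1 : ℂ) • b := by rw [neg_one_smul, sub_eq_add_neg]
  rw [h1, h.add, h.smul]; ring

theorem CoefAlg.map_zero {G : Type*} [Group G] {H : Type*} [NormedAddCommGroup H]
    [InnerProductSpace ℂ H] {U : G → H →L[ℂ] H} {A : Type*} [NonUnitalNormedCommRing A]
    [NormedSpace ℂ A] {ι : A → G → ℂ} (h : CoefAlg U ι) (s : G) : ι 0 s = 0 := by
  have h1 : (0 : A) = (0 : ℂ) • (0 : A) := by rw [zero_smul]
  rw [h1, h.smul]; ring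

variable {G : Type*} [Group G] [TopologicalSpace G] {H : Type*} [NormedAddCommGroup H]
  [InnerProductSpace ℂ H] [CompleteSpace H] {U : G → H →L[ℂ] H}
  {A : Type*} [NonUnitalNormedCommRing A] [NormedSpace ℂ A] {ι : A → G → ℂ}

theorem delta_le {x : ℕ → Cell H A} (hg : ∀ n, Good U ι (x n))
    (hr : ∀ m n, m < n → Rel ι (x m) (x n)) (n : ℕ) : (x n).δ ≤ 1 / 16 * (1 / 2) ^ n := by
  induction n with
  | zero => simpa using (hg 0).δ1
  | succ n ih =>
    have := (hr n (n + 1) (Nat.lt_succ_self n)).δ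
    rw [pow_succ]
    linarith

theorem cells_blocks (hU : IsURep U) {x : ℕ → Cell H A} (hg : ∀ n, Good U ι (x n))
    (hr : ∀ m n, m < n → Rel ι (x m) (x n)) :
    ∃ T : ℕ → (H →L[ℂ] H), (∀ N, Kills U (T N) ∧ ‖T N‖ ≤ 5) ∧
      ∀ k N, k < N → 3 / 4 ≤ (inner ℂ (x (2 * k)).ξ (T N (x (2 * k)).ξ) : ℂ).re ∧
        (inner ℂ (x (2 * k + 1)).ξ (T N (x (2 * k + 1)).ξ) : ℂ).re ≤ 1 / 32 := by
  have hδ := delta_le hg hr
  set D : ℕ → H →L[ℂ] H := fun k => (x (2 * k + 1)).P - (x (2 * k)).P with hD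
  have hDsa : ∀ k, IsSelfAdjoint (D k) := fun k => (hg _).sa.sub (hg _).sa
  have hDn : ∀ k, ‖D k‖ ≤ 2 := fun k =>
    (norm_sub_le _ _).trans (by have := (hg (2 * k + 1)).le; have := (hg (2 * k)).le; linarith)
  have hpow : ∀ {m n : ℕ}, m ≤ n → ((1 : ℝ) / 2) ^ n ≤ (1 / 2) ^ m := fun h =>
    pow_le_pow_of_le_one (by norm_num) (by norm_num) h
  -- almost orthogonality
  have hlt : ∀ m n, n < m → ‖D m * D n‖ ≤ (1 / 2) ^ (m + 1) * (1 / 2) ^ (n + 1) := by
    intro m n hnm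
    have h1 : D m * D n = ((x (2 * m + 1)).P * (x (2 * n + 1)).P - (x (2 * n + 1)).P)
        - ((x (2 * m + 1)).P * (x (2 * n)).P - (x (2 * n)).P)
        - ((x (2 * m)).P * (x (2 * n + 1)).P - (x (2 * n + 1)).P)
        + ((x (2 * m)).P * (x (2 * n)).P - (x (2 * n)).P) := by
      simp only [hD]
      rw [sub_mul, mul_sub, mul_sub]; abel
    have h2 := (hr (2 * n + 1) (2 * m + 1) (by omega)).PP
    have h3 := (hr (2 * n) (2 * m + 1) (by omega)).PP
    have h4 := (hr (2 * n + 1) (2 * m) (by omega)).PP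
    have h5 := (hr (2 * n) (2 * m) (by omega)).PP
    have h6 := hδ (2 * m + 1)
    have h7 := hδ (2 * m)
    have h8 : ((1 : ℝ) / 2) ^ (2 * m + 1) ≤ (1 / 2) ^ (2 * m) := hpow (by omega)
    have h9 : ‖D m * D n‖ ≤ 4 * (1 / 16 * (1 / 2) ^ (2 * m)) := by
      rw [h1]
      refine (norm_add_le _ _).trans ?_
      refine (add_le_add_left ((norm_sub_le _ _).trans (add_le_add_left (norm_sub_le _ _) _)) _).trans ?_
      linarith
    refine h9.trans ?_
    have h10 : (4 : ℝ) * (1 / 16 * (1 / 2) ^ (2 * m)) = (1 / 2) ^ (m + 1) * (1 / 2) ^ (m + 1) := by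
      rw [two_mul, pow_add, pow_succ]; ring
    rw [h10]
    exact mul_le_mul_of_nonneg_left (hpow (by omega)) (by positivity)
  have horth : ∀ m n, m ≠ n → ‖D m * D n‖ ≤ (1 / 2) ^ (m + 1) * (1 / 2) ^ (n + 1) := by
    intro m n hmn
    rcases Nat.lt_or_gt_of_ne hmn with h | h
    · have h1 : D m * D n = star (D n * D m) := by
        rw [star_mul, (hDsa m).star_eq, (hDsa n).star_eq]
      rw [h1, norm_star, mul_comm]
      exact hlt n m h
    · exact hlt m n h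
  have hsum : ∀ N, ∑ n ∈ Finset.range N, ((1 : ℝ) / 2) ^ (n + 1) ≤ 1 := by
    intro N
    have h1 : ∀ N, ∑ n ∈ Finset.range N, ((1 : ℝ) / 2) ^ (n + 1) = 1 - (1 / 2) ^ N := by
      intro N
      induction N with
      | zero => simp
      | succ N ih => rw [Finset.sum_range_succ, ih, pow_succ]; ring
    rw [h1]
    have : (0 : ℝ) ≤ (1 / 2) ^ N := by positivity
    linarith
  have hform : ∀ (N : ℕ) (ζ : H), (inner ℂ ζ ((∑ n ∈ Finset.range N, D n * D n) ζ) : ℂ).re =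
      ∑ n ∈ Finset.range N, ‖D n ζ‖ ^ 2 := by
    intro N ζ
    have h1 : inner ℂ ζ ((∑ n ∈ Finset.range N, D n * D n) ζ) =
        ((∑ n ∈ Finset.range N, ‖D n ζ‖ ^ 2 : ℝ) : ℂ) := by
      have h2 : (∑ n ∈ Finset.range N, D n * D n) ζ = ∑ n ∈ Finset.range N, D n (D n ζ) := by simp
      rw [h2, inner_sum]
      push_cast
      refine Finset.sum_congr rfl fun n _ => ?_
      rw [← inner_sa (hDsa n), inner_self_eq_norm_sq_to_K]; norm_cast
    rw [h1, Complex.ofReal_re]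
  refine ⟨fun N => ∑ n ∈ Finset.range N, D n * D n, fun N => ⟨?_, ?_⟩, fun k N hk => ⟨?_, ?_⟩⟩
  · have hm : ∀ k, Kills U (D k) := by
      intro k
      have h1 : (x (2 * k + 1)).P - (x (2 * k)).P ∈ VN hU :=
        sub_mem (hg _).kills (hg _).kills
      exact h1
    have h2 : (∑ n ∈ Finset.range N, D n * D n) ∈ VN hU := sum_mem fun n _ => (hm n).mul hU (hm n)
    exact h2
  · exact norm_sum_sq_le' hDsa hDn (fun n => (1 / 2) ^ (n + 1)) (fun n => by positivity) hsum horth N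
  · rw [hform]
    refine le_trans ?_ (Finset.single_le_sum (f := fun n => ‖D n (x (2 * k)).ξ‖ ^ 2)
      (fun n _ => by positivity) (Finset.mem_range.2 hk))
    have h1 := (hr (2 * k) (2 * k + 1) (by omega)).Pξ
    have h2 := (hg (2 * k)).small
    have h3 := (hg (2 * k + 1)).δ1
    have h4 := (hg (2 * k)).δ1
    have h5 : ‖(x (2 * k)).ξ‖ ≤ ‖D k (x (2 * k)).ξ‖ + 1 / 16 + 1 / 16 := by
      have h6 : (x (2 * k)).ξ = D k (x (2 * k)).ξ - ((x (2 * k + 1)).P (x (2 * k)).ξ - (x (2 * k)).ξ)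
          + (x (2 * k)).P (x (2 * k)).ξ := by
        have : D k (x (2 * k)).ξ = (x (2 * k + 1)).P (x (2 * k)).ξ - (x (2 * k)).P (x (2 * k)).ξ := rfl
        rw [this]; abel
      calc ‖(x (2 * k)).ξ‖ = ‖D k (x (2 * k)).ξ - ((x (2 * k + 1)).P (x (2 * k)).ξ - (x (2 * k)).ξ)
          + (x (2 * k)).P (x (2 * k)).ξ‖ := by rw [← h6]
        _ ≤ _ := (norm_add_le _ _).trans (add_le_add ((norm_sub_le _ _).trans
              (add_le_add_right (h1.trans h3) _)) (h2.trans h4))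
    rw [(hg (2 * k)).norm] at h5
    nlinarith
  · rw [hform]
    set j := 2 * k + 1 with hj
    have h1 : ∀ l, ‖D l (x j).ξ‖ ≤ 1 / 8 * (1 / 2) ^ l := by
      intro l
      have hDl : D l (x j).ξ = (x (2 * l + 1)).P (x j).ξ - (x (2 * l)).P (x j).ξ := rfl
      rcases Nat.lt_or_ge k l with h | h
      · have h2 := (hr j (2 * l + 1) (by omega)).Pξ
        have h3 := (hr j (2 * l) (by omega)).Pξ
        have h4 := hδ (2 * l + 1)
        have h5 := hδ (2 * l)
        have h6 : ((1 : ℝ) / 2) ^ (2 * l + 1) ≤ (1 / 2) ^ l := hpow (by omega)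
        have h7 : ((1 : ℝ) / 2) ^ (2 * l) ≤ (1 / 2) ^ l := hpow (by omega)
        have h8 : D l (x j).ξ = ((x (2 * l + 1)).P (x j).ξ - (x j).ξ) -
            ((x (2 * l)).P (x j).ξ - (x j).ξ) := by rw [hDl]; abel
        rw [h8]
        refine (norm_sub_le _ _).trans ?_
        linarith
      · have h2 : ∀ i, i ≤ j → ‖(x i).P (x j).ξ‖ ≤ (x j).δ := by
          intro i hi
          rcases hi.lt_or_eq with hi | hi
          · exact (hr i j hi).small
          · rw [hi]; exact (hg j).small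
        have h3 := h2 (2 * l + 1) (by omega)
        have h4 := h2 (2 * l) (by omega)
        have h5 := hδ j
        have h6 : ((1 : ℝ) / 2) ^ j ≤ (1 / 2) ^ l := hpow (by omega)
        rw [hDl]
        refine (norm_sub_le _ _).trans ?_
        linarith
    have h2 : ∀ l, ‖D l (x j).ξ‖ ^ 2 ≤ 1 / 32 * (1 / 2) ^ (l + 1) := by
      intro l
      have h3 : ‖D l (x j).ξ‖ ^ 2 ≤ (1 / 8 * (1 / 2) ^ l) ^ 2 :=
        pow_le_pow_left₀ (norm_nonneg _) (h1 l) 2
      have h4 : ((1 : ℝ) / 2) ^ l ≤ 1 := pow_le_one₀ (by norm_num) (by norm_num)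
      have h5 : (0 : ℝ) < (1 / 2) ^ l := by positivity
      have h6 : ((1 : ℝ) / 2) ^ (l + 1) = (1 / 2) ^ l * (1 / 2) := pow_succ _ _
      rw [h6]
      nlinarith
    refine (Finset.sum_le_sum fun l _ => h2 l).trans ?_
    rw [← Finset.mul_sum]
    have := hsum N
    linarith

variable [IsScalarTower ℂ A A] [SMulCommClass ℂ A A]

theorem nondisc_abstract (hU : IsURep U) [T1Space G] [(𝓝[≠] (1 : G)).NeBot]
    (h : CoefAlg U ι)
    (hcont : ∀ (ξ : H) (ε : ℝ), 0 < ε → ∀ᶠ t in 𝓝 (1 : G), ‖U t ξ - ξ‖ ≤ ε)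
    (happ : ∀ W ∈ 𝓝 (1 : G), ∃ P : H →L[ℂ] H, Kills U P ∧ IsSelfAdjoint P ∧ ‖P‖ ≤ 1 ∧
      NCont U P ∧ ∀ (ξ : H) (ε : ℝ), (∀ s ∈ W, ‖U s ξ - ξ‖ ≤ ε) → ‖P ξ - ξ‖ ≤ 2 * ε)
    (hloc : ∀ W ∈ 𝓝 (1 : G), ∃ ξ η : H, ‖ξ‖ = 1 ∧ ‖η - ξ‖ ≤ 1 / 100 ∧
      (∀ s, s ∉ W → coef U ξ ξ s = 0 ∧ coef U ξ η s = 0) ∧ ∀ᶠ s in 𝓝 (1 : G), coef U ξ η s = 1) :
    ∃ D : Bidual A, D ≠ 0 ∧ ∀ Ψ : Bidual A, D * Ψ * D = 0 := by
  obtain ⟨x, hg, hr⟩ := exists_cells hU h hcont happ hloc
  obtain ⟨T, hT, hTx⟩ := cells_blocks hU hg hr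
  -- the functionals
  have hφ : ∀ N, ∃ φ : A →L[ℂ] ℂ, ‖φ‖ ≤ 5 ∧
      ∀ (a : A) (ξ η : H), ι a = coef U ξ η → φ a = inner ℂ η (T N ξ) := by
    intro N
    obtain ⟨φ, h1, h2⟩ := exists_functional h (hT N).1
    exact ⟨φ, h1.trans (hT N).2, h2⟩
  choose φ hφ1 hφ2 using hφ
  obtain ⟨D, hD⟩ := exists_limit_functional φ 5 hφ1 (hyperfilter ℕ)
  have hle : (hyperfilter ℕ : Filter ℕ) ≤ atTop := by
    rw [← Nat.cofinite_eq_atTop]; exact hyperfilter_le_cofinite
  -- the values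
  have hval : ∀ N j, ‖φ N (x j).a - inner ℂ (x j).ξ (T N (x j).ξ)‖ ≤ 1 / 20 := by
    intro N j
    rw [hφ2 N _ _ _ (hg j).coef, ← inner_sub_left]
    refine (norm_inner_le_norm _ _).trans ?_
    have h1 := (T N).le_of_opNorm_le (hT N).2 (x j).ξ
    rw [(hg j).norm, mul_one] at h1
    calc ‖(x j).η - (x j).ξ‖ * ‖T N (x j).ξ‖ ≤ 1 / 100 * 5 :=
          mul_le_mul (hg j).near h1 (norm_nonneg _) (by norm_num)
      _ = 1 / 20 := by norm_num
  refine crit (fun k => (x (2 * k)).a - (x (2 * k + 1)).a) 3 ?_ ?_ D (1 / 2) (by norm_num) ?_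
  · intro k
    have h1 : ∀ j, ‖(x j).a‖ ≤ 101 / 100 := by
      intro j
      refine (h.norm_le_of (hg j).coef).trans ?_
      rw [(hg j).norm, one_mul]
      have h2 := (hg j).near
      have h3 : ‖(x j).η‖ ≤ ‖(x j).η - (x j).ξ‖ + ‖(x j).ξ‖ := by
        have := norm_add_le ((x j).η - (x j).ξ) (x j).ξ
        rwa [sub_add_cancel] at this
      rw [(hg j).norm] at h3
      linarith
    exact (norm_sub_le _ _).trans (by have := h1 (2 * k); have := h1 (2 * k + 1); linarith)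
  · intro i
    refine tendsto_const_nhds.congr' ?_
    filter_upwards [eventually_gt_atTop i] with k hk
    have h1 : ((x (2 * i)).a - (x (2 * i + 1)).a) * ((x (2 * k)).a - (x (2 * k + 1)).a) = 0 := by
      apply h.inj
      funext s
      rw [h.mul, h.map_sub, h.map_sub, h.map_zero]
      by_cases h2 : ι (x (2 * k)).a s = 0
      · by_cases h3 : ι (x (2 * k + 1)).a s = 0
        · rw [h2, h3]; ring
        · rw [(hr (2 * i) (2 * k + 1) (by omega)).supp s h3,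
            (hr (2 * i + 1) (2 * k + 1) (by omega)).supp s h3]; ring
      · rw [(hr (2 * i) (2 * k) (by omega)).supp s h2,
            (hr (2 * i + 1) (2 * k) (by omega)).supp s h2]; ring
    rw [h1, norm_zero]
  · intro k
    refine ge_of_tendsto ((hD _).norm) ?_
    refine hle ?_
    filter_upwards [eventually_gt_atTop k] with N hN
    obtain ⟨h1, h2⟩ := hTx k N hN
    have h3 := hval N (2 * k)
    have h4 := hval N (2 * k + 1)
    have h5 : |(φ N (x (2 * k)).a - inner ℂ (x (2 * k)).ξ (T N (x (2 * k)).ξ)).re| ≤ 1 / 20 :=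
      (Complex.abs_re_le_norm _).trans h3
    have h6 : |(φ N (x (2 * k + 1)).a - inner ℂ (x (2 * k + 1)).ξ (T N (x (2 * k + 1)).ξ)).re| ≤
        1 / 20 := (Complex.abs_re_le_norm _).trans h4
    rw [Complex.sub_re, abs_le] at h5 h6
    have h7 : (1 / 2 : ℝ) ≤ (φ N ((x (2 * k)).a - (x (2 * k + 1)).a)).re := by
      rw [_root_.map_sub, Complex.sub_re]
      linarith [h5.1, h6.2]
    exact h7.trans (Complex.re_le_norm _)

end Pool.Agent.H25FA
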