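import Mathlib
import Pool.Agent.H25FA.VN

set_option autoImplicit false
set_option linter.unusedSectionVars false

/-!
# The left regular representation of a locally compact group and its Fourier algebra
-/

open MeasureTheory Filter Topology
open scoped ENNReal

namespace Pool.Agent.H25FA

variable {G : Type*} [Group G] [TopologicalSpace G] [IsTopologicalGroup G] [MeasurableSpace G]
  [BorelSpace G] (μ : Measure G) [μ.IsMulLeftInvariant]

/-- The left regular representation on `L²(G, μ)`: `(λ(s) ξ)(x) = ξ(s⁻¹ x)`. -/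
noncomputable def lreg (s : G) : Lp ℂ 2 μ →L[ℂ] Lp ℂ 2 μ :=
  (Lp.compMeasurePreservingₗᵢ ℂ (fun x : G => s⁻¹ * x)
    (measurePreserving_mul_left μ s⁻¹)).toContinuousLinearMap

theorem lreg_apply (s : G) (ξ : Lp ℂ 2 μ) :
    lreg μ s ξ = Lp.compMeasurePreserving (fun x : G => s⁻¹ * x)
      (measurePreserving_mul_left μ s⁻¹) ξ := rfl

theorem lreg_ae (s : G) (ξ : Lp ℂ 2 μ) : lreg μ s ξ =ᵐ[μ] fun x => ξ (s⁻¹ * x) :=
  Lp.coeFn_compMeasurePreserving ξ (measurePreserving_mul_left μ s⁻¹)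

theorem lreg_isom (s : G) (ξ η : Lp ℂ 2 μ) :
    inner ℂ (lreg μ s ξ) (lreg μ s η) = inner ℂ ξ η :=
  (Lp.compMeasurePreservingₗᵢ ℂ (fun x : G => s⁻¹ * x)
    (measurePreserving_mul_left μ s⁻¹)).inner_map_map ξ η

theorem lreg_one : lreg μ (1 : G) = 1 := by
  ext1 ξ
  apply Lp.ext
  filter_upwards [lreg_ae μ 1 ξ] with x hx
  rw [hx, inv_one, one_mul]; rfl

theorem lreg_mul (s t : G) : lreg μ (s * t) = lreg μ s * lreg μ t := by
  ext1 ξ
  apply Lp.ext
  have h1 := lreg_ae μ (s * t) ξ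
  have h2 := lreg_ae μ s (lreg μ t ξ)
  have h3 := (measurePreserving_mul_left μ s⁻¹).quasiMeasurePreserving.ae (lreg_ae μ t ξ)
  filter_upwards [h1, h2, h3] with x h1 h2 h3
  rw [h1]
  have h4 : (lreg μ s * lreg μ t) ξ = lreg μ s (lreg μ t ξ) := rfl
  rw [h4, h2, h3, mul_inv_rev, mul_assoc]

theorem isURep_lreg : IsURep (lreg μ : G → Lp ℂ 2 μ →L[ℂ] Lp ℂ 2 μ) where
  one := lreg_one μ
  mul := lreg_mul μ
  adj := by
    intro s ξ η
    have h1 : lreg μ s (lreg μ s⁻¹ η) = η := by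
      have : lreg μ s (lreg μ s⁻¹ η) = (lreg μ s * lreg μ s⁻¹) η := rfl
      rw [this, ← lreg_mul, mul_inv_cancel, lreg_one]; rfl
    conv_lhs => rw [← h1]
    rw [lreg_isom]

theorem continuous_lreg [T2Space G] [LocallyCompactSpace G] [IsFiniteMeasureOnCompacts μ]
    [μ.InnerRegularCompactLTTop] (ξ : Lp ℂ 2 μ) : Continuous fun s : G => lreg μ s ξ := by
  let g : G → C(G, G) := fun s => ⟨fun x => s⁻¹ * x, by fun_prop⟩
  have hg : Continuous g := ContinuousMap.continuous_of_continuous_uncurry _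
    (by simp only [g, Function.uncurry_def, ContinuousMap.coe_mk]; fun_prop)
  exact (continuous_const (y := ξ)).compMeasurePreservingLp hg
    (fun s => measurePreserving_mul_left μ s⁻¹) (by norm_num)

/-- **The Fourier algebra.** The commutative normed algebra `A` is, by means of the injective
homomorphism `ι` into the functions on `G`, the Fourier algebra `A(G)`: the algebra of the functions
`s ↦ ⟨λ(s) ξ, η⟩`, `ξ, η ∈ L²(G)`, with pointwise operations and the norm `‖u‖ = inf ‖ξ‖ ‖η‖` over all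
such representations of `u`. -/
def IsFourierAlgebra {A : Type*} [NonUnitalNormedCommRing A] [NormedSpace ℂ A] (ι : A → G → ℂ) :
    Prop :=
  CoefAlg (lreg μ : G → Lp ℂ 2 μ →L[ℂ] Lp ℂ 2 μ) ι

end Pool.Agent.H25FA
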