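import Mathlib
import Pool.Agent.H25FA.Reg
import Pool.Agent.H25FA.Assembly

set_option autoImplicit false
set_option linter.unusedSectionVars false
set_option linter.deprecated false

/-!
# Averages of translation operators over compact sets
-/

open MeasureTheory Filter Topology
open scoped ENNReal Pointwise

namespace Pool.Agent.H25FA

section abs

variable {G : Type*} [Group G] [TopologicalSpace G] {H : Type*} [NormedAddCommGroup H]
  [InnerProductSpace ℂ H] [CompleteSpace H] {U : G → H →L[ℂ] H}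

theorem norm_le_of_inner_self {v : H} {ε : ℝ} (h : ‖inner ℂ v v‖ ≤ ε * ‖v‖) (h0 : 0 ≤ ε) :
    ‖v‖ ≤ ε := by
  rw [inner_self_eq_norm_sq_to_K, norm_pow] at h
  have h1 : ‖((‖v‖ : ℝ) : ℂ)‖ = ‖v‖ := by rw [Complex.norm_real, norm_norm]
  have h2 : ‖v‖ ^ 2 ≤ ε * ‖v‖ := by
    have h3 := h
    simpa using h3
  by_contra hcon
  push Not at hcon
  nlinarith [norm_nonneg v]

/-- the passage from an average `Q` to `Q Q*` -/
theorem happ_abs (hU : IsURep U) {Q : H →L[ℂ] H} (hk : Kills U Q) (h1 : ‖Q‖ ≤ 1)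
    (hc : NCont U Q) (K : Set G) (hK1 : (1 : G) ∈ K)
    (hQ : ∀ (ξ ζ : H) (ε : ℝ), (∀ s ∈ K, ‖inner ℂ ζ (U s ξ - ξ)‖ ≤ ε) →
      ‖inner ℂ ζ (Q ξ - ξ)‖ ≤ ε) :
    ∃ P : H →L[ℂ] H, Kills U P ∧ IsSelfAdjoint P ∧ ‖P‖ ≤ 1 ∧ NCont U P ∧
      ∀ (ξ : H) (ε : ℝ), (∀ s ∈ K, ‖U s ξ - ξ‖ ≤ ε) → ‖P ξ - ξ‖ ≤ 2 * ε := by
  have hs1 : ‖star Q‖ ≤ 1 := by rw [norm_star]; exact h1
  have hadj : ∀ x y : H, inner ℂ x (star Q y) = inner ℂ (Q x) y := by
    intro x y
    rw [ContinuousLinearMap.star_eq_adjoint, ContinuousLinearMap.adjoint_inner_right]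
  refine ⟨Q * star Q, hk.mul hU (hk.star hU), IsSelfAdjoint.mul_star_self Q, ?_, ?_, ?_⟩
  · refine (norm_mul_le _ _).trans ?_
    exact mul_le_one₀ h1 (norm_nonneg _) hs1
  · intro ε hε
    filter_upwards [hc ε hε] with t ht
    have h2 : U t * (Q * star Q) - Q * star Q = (U t * Q - Q) * star Q := by
      rw [sub_mul, mul_assoc]
    rw [h2]
    refine (norm_mul_le _ _).trans ?_
    exact (mul_le_of_le_one_right (norm_nonneg _) hs1).trans ht
  · intro ξ ε h
    have h0 : 0 ≤ ε := (norm_nonneg _).trans (h 1 hK1)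
    have hQa : ‖Q ξ - ξ‖ ≤ ε := by
      refine norm_le_of_inner_self (hQ ξ _ _ fun s hs => ?_) h0
      refine (norm_inner_le_norm _ _).trans ?_
      rw [mul_comm]
      exact mul_le_mul_of_nonneg_right (h s hs) (norm_nonneg _)
    have hQsa : ‖(star Q) ξ - ξ‖ ≤ ε := by
      refine norm_le_of_inner_self ?_ h0
      set v := (star Q) ξ - ξ with hv
      have h2 : inner ℂ v v = starRingEnd ℂ (inner ℂ ξ (Q v - v)) := by
        rw [inner_conj_symm, inner_sub_left (Q v) v ξ, ← hadj v ξ, ← inner_sub_right]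
      rw [h2, RCLike.norm_conj]
      refine hQ v ξ _ fun s hs => ?_
      have h3 : inner ℂ ξ (U s v - v) = inner ℂ (U s⁻¹ (ξ - U s ξ)) v := by
        rw [hU.adj, inv_inv, inner_sub_left, inner_sub_right, hU.adj, ← ContinuousLinearMap.mul_apply,
          ← hU.mul, inv_mul_cancel, hU.one]
        rfl
      rw [h3]
      refine (norm_inner_le_norm _ _).trans ?_
      rw [hU.norm, norm_sub_rev]
      exact mul_le_mul_of_nonneg_right (h s hs) (norm_nonneg _)
    have h4 : (Q * star Q) ξ - ξ = Q ((star Q) ξ - ξ) + (Q ξ - ξ) := by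
      have : (Q * star Q) ξ = Q ((star Q) ξ) := rfl
      rw [this, map_sub]; abel
    rw [h4, two_mul]
    refine (norm_add_le _ _).trans (add_le_add ?_ hQa)
    exact (Q.le_of_opNorm_le h1 _).trans (by rw [one_mul]; exact hQsa)

end abs

variable {G : Type*} [Group G] [TopologicalSpace G] [IsTopologicalGroup G]
  [LocallyCompactSpace G] [T2Space G] [MeasurableSpace G] [BorelSpace G] (μ : Measure G)
  [μ.IsHaarMeasure] [μ.Regular]

theorem integrable_lreg {K : Set G} (hK : IsCompact K) (ξ : Lp ℂ 2 μ) :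
    IntegrableOn (fun s => lreg μ s ξ) K μ :=
  (continuous_lreg μ ξ).continuousOn.integrableOn_compact hK

/-- the integral of the translates over a compact set -/
noncomputable def tint (K : Set G) (hK : IsCompact K) : Lp ℂ 2 μ →L[ℂ] Lp ℂ 2 μ :=
  LinearMap.mkContinuous
    { toFun := fun ξ => ∫ s in K, lreg μ s ξ ∂μ
      map_add' := fun ξ η => by
        simp only [map_add]
        exact integral_add (integrable_lreg μ hK ξ) (integrable_lreg μ hK η)
      map_smul' := fun c ξ => by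
        simp only [map_smul, RingHom.id_apply]
        exact integral_smul c _ } (μ.real K) (fun ξ => by
    refine (norm_setIntegral_le_of_norm_le_const hK.measure_lt_top (C := ‖ξ‖) fun s _ =>
      (isURep_lreg μ).norm s ξ |>.le).trans (by rw [mul_comm]))

theorem tint_apply (K : Set G) (hK : IsCompact K) (ξ : Lp ℂ 2 μ) :
    tint μ K hK ξ = ∫ s in K, lreg μ s ξ ∂μ := rfl

theorem inner_tint (K : Set G) (hK : IsCompact K) (ξ η : Lp ℂ 2 μ) :
    inner ℂ η (tint μ K hK ξ) = ∫ s in K, inner ℂ η (lreg μ s ξ) ∂μ := by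
  rw [tint_apply, integral_inner (integrable_lreg μ hK ξ)]

theorem norm_tint_le (K : Set G) (hK : IsCompact K) : ‖tint μ K hK‖ ≤ μ.real K :=
  LinearMap.mkContinuous_norm_le _ (by positivity) _

theorem kills_tint (K : Set G) (hK : IsCompact K) : Kills (lreg μ) (tint μ K hK) := by
  intro n ξ η h
  simp only [inner_tint]
  rw [← integral_finset_sum]
  · simp only [h _]; simp
  · intro i _
    exact (integrable_lreg μ hK (ξ i)).const_inner (η i)

theorem lreg_tint (K : Set G) (hK : IsCompact K) (t : G) (ξ : Lp ℂ 2 μ) :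
    ‖lreg μ t (tint μ K hK ξ) - tint μ K hK ξ‖ ≤
      (μ.real (t • K \ K) + μ.real (t⁻¹ • K \ K)) * ‖ξ‖ := by
  have hg : Continuous fun s => lreg μ s ξ := continuous_lreg μ ξ
  have h1 : lreg μ t (tint μ K hK ξ) = ∫ s in t • K, lreg μ s ξ ∂μ := by
    rw [tint_apply, ← ContinuousLinearMap.integral_comp_comm _ (integrable_lreg μ hK ξ)]
    have h2 := MeasurePreserving.setIntegral_preimage_emb (measurePreserving_mul_left μ t)
      (measurableEmbedding_mulLeft t) (fun s => lreg μ s ξ) (t • K)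
    have h3 : (fun x => t * x) ⁻¹' (t • K) = K := by
      ext x
      rw [Set.mem_preimage, ← smul_eq_mul, Set.smul_mem_smul_set_iff]
    rw [h3] at h2
    rw [← h2]
    refine setIntegral_congr_fun hK.measurableSet fun s _ => ?_
    change lreg μ t (lreg μ s ξ) = lreg μ (t * s) ξ
    rw [lreg_mul]; rfl
  have hKt : IsCompact (t • K) := hK.smul t
  have h4 := integral_inter_add_sdiff (μ := μ) hK.measurableSet (integrable_lreg μ hKt ξ)
  have h5 := integral_inter_add_sdiff (μ := μ) hKt.measurableSet (integrable_lreg μ hK ξ)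
  have h6 : lreg μ t (tint μ K hK ξ) - tint μ K hK ξ =
      (∫ s in t • K \ K, lreg μ s ξ ∂μ) - ∫ s in K \ t • K, lreg μ s ξ ∂μ := by
    rw [h1, tint_apply, ← h4, ← h5, Set.inter_comm K]; abel
  have h7 : μ (K \ t • K) = μ (t⁻¹ • K \ K) := by
    rw [← measure_smul μ t⁻¹ (K \ t • K), Set.smul_set_sdiff, inv_smul_smul]
  have hb : ∀ S : Set G, μ S < ∞ → ‖∫ s in S, lreg μ s ξ ∂μ‖ ≤ μ.real S * ‖ξ‖ := by
    intro S hS
    refine (norm_setIntegral_le_of_norm_le_const hS (C := ‖ξ‖) fun s _ =>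
      (isURep_lreg μ).norm s ξ |>.le).trans (by rw [mul_comm])
  rw [h6, add_mul]
  refine (norm_sub_le _ _).trans (add_le_add ?_ ?_)
  · exact hb _ ((measure_mono Set.sdiff_subset).trans_lt hKt.measure_lt_top)
  · refine (hb _ ((measure_mono Set.sdiff_subset).trans_lt hK.measure_lt_top)).trans (le_of_eq ?_)
    rw [measureReal_def, measureReal_def, h7]

theorem happ (W : Set G) (hW : W ∈ 𝓝 (1 : G)) : ∃ P : Lp ℂ 2 μ →L[ℂ] Lp ℂ 2 μ,
    Kills (lreg μ) P ∧ IsSelfAdjoint P ∧ ‖P‖ ≤ 1 ∧ NCont (lreg μ) P ∧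
      ∀ (ξ : Lp ℂ 2 μ) (ε : ℝ), (∀ s ∈ W, ‖lreg μ s ξ - ξ‖ ≤ ε) → ‖P ξ - ξ‖ ≤ 2 * ε := by
  obtain ⟨K, hKn, hKW, hK⟩ := local_compact_nhds hW
  have hr0 : 0 < μ.real K := ENNReal.toReal_pos (Measure.measure_pos_of_mem_nhds μ hKn).ne'
    hK.measure_lt_top.ne
  set r : ℝ := μ.real K with hr
  set Q : Lp ℂ 2 μ →L[ℂ] Lp ℂ 2 μ := ((r⁻¹ : ℝ) : ℂ) • tint μ K hK with hQ
  have hrn : ‖((r⁻¹ : ℝ) : ℂ)‖ = r⁻¹ := by
    rw [Complex.norm_real, Real.norm_of_nonneg (by positivity)]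
  have hQ1 : ‖Q‖ ≤ 1 := by
    rw [hQ, norm_smul, hrn, inv_mul_le_iff₀ hr0, mul_one]
    exact norm_tint_le μ K hK
  have hQk : Kills (lreg μ) Q := (kills_tint μ K hK).smul _
  -- the approximation property
  have hQin : ∀ ξ ζ : Lp ℂ 2 μ, inner ℂ ζ (Q ξ - ξ) =
      ((r⁻¹ : ℝ) : ℂ) * ∫ s in K, inner ℂ ζ (lreg μ s ξ - ξ) ∂μ := by
    intro ξ ζ
    have h1 : ∫ s in K, inner ℂ ζ (lreg μ s ξ - ξ) ∂μ =
        inner ℂ ζ (tint μ K hK ξ) - (r : ℂ) * inner ℂ ζ ξ := by
      simp only [inner_sub_right]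
      rw [integral_sub, inner_tint, setIntegral_const, ← hr]
      · simp
      · exact (integrable_lreg μ hK ξ).const_inner ζ
      · exact (continuous_const.continuousOn.integrableOn_compact hK)
    rw [h1, inner_sub_right, hQ, ContinuousLinearMap.smul_apply, inner_smul_right, mul_sub]
    congr 1
    rw [← mul_assoc, ← Complex.ofReal_mul, inv_mul_cancel₀ hr0.ne', Complex.ofReal_one, one_mul]
  have hbd : ∀ ξ ζ : Lp ℂ 2 μ, ∀ ε : ℝ, (∀ s ∈ K, ‖inner ℂ ζ (lreg μ s ξ - ξ)‖ ≤ ε) →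
      ‖inner ℂ ζ (Q ξ - ξ)‖ ≤ ε := by
    intro ξ ζ ε h
    rw [hQin, norm_mul, hrn, inv_mul_le_iff₀ hr0, mul_comm]
    exact norm_setIntegral_le_of_norm_le_const hK.measure_lt_top h
  have hc : NCont (lreg μ) Q := by
    intro ε hε
    have hε' : 0 < ε * r / 2 := by positivity
    have h1 : ∀ᶠ t in 𝓝 (1 : G), μ (t • K \ K) < ENNReal.ofReal (ε * r / 2) :=
      eventually_nhds_one_measure_smul_sdiff_lt hK hK.isClosed
        (by rw [ne_eq, ENNReal.ofReal_eq_zero]; exact not_le.2 hε')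
    have h2 : ∀ᶠ t in 𝓝 (1 : G), μ (t⁻¹ • K \ K) < ENNReal.ofReal (ε * r / 2) := by
      have h3 : Tendsto (fun t : G => t⁻¹) (𝓝 1) (𝓝 1) := by
        have := (continuous_inv (G := G)).tendsto 1
        rwa [inv_one] at this
      exact h3.eventually h1
    filter_upwards [h1, h2] with t h1 h2
    have h3 : μ.real (t • K \ K) ≤ ε * r / 2 := ENNReal.toReal_le_of_le_ofReal hε'.le h1.le
    have h4 : μ.real (t⁻¹ • K \ K) ≤ ε * r / 2 := ENNReal.toReal_le_of_le_ofReal hε'.le h2.le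
    refine ContinuousLinearMap.opNorm_le_bound _ hε.le fun ξ => ?_
    have h5 : (lreg μ t * Q - Q) ξ = ((r⁻¹ : ℝ) : ℂ) •
        (lreg μ t (tint μ K hK ξ) - tint μ K hK ξ) := by
      have : (lreg μ t * Q - Q) ξ = lreg μ t (Q ξ) - Q ξ := rfl
      rw [this, hQ, ContinuousLinearMap.smul_apply, map_smul, smul_sub]
    rw [h5, norm_smul, hrn, inv_mul_le_iff₀ hr0]
    refine (lreg_tint μ K hK t ξ).trans ?_
    have h6 : μ.real (t • K \ K) + μ.real (t⁻¹ • K \ K) ≤ r * ε := by linarith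
    calc _ ≤ (r * ε) * ‖ξ‖ := mul_le_mul_of_nonneg_right h6 (norm_nonneg _)
      _ = r * (ε * ‖ξ‖) := by ring
  obtain ⟨P, h1, h2, h3, h4, h5⟩ := happ_abs (isURep_lreg μ) hQk hQ1 hc K (mem_of_mem_nhds hKn) hbd
  exact ⟨P, h1, h2, h3, h4, fun ξ ε h => h5 ξ ε fun s hs => h s (hKW hs)⟩

end Pool.Agent.H25FA
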