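import Mathlib
import Pool.Agent.H25FA.Average

set_option autoImplicit false
set_option linter.unusedSectionVars false
set_option linter.deprecated false

/-!
# Localised vectors of the regular representation
-/

open MeasureTheory Filter Topology
open scoped ENNReal Pointwise

namespace Pool.Agent.H25FA

variable {G : Type*} [Group G] [TopologicalSpace G] [IsTopologicalGroup G]
  [LocallyCompactSpace G] [T2Space G] [MeasurableSpace G] [BorelSpace G] (μ : Measure G)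
  [μ.IsHaarMeasure] [μ.Regular]

theorem inner_ind {K L : Set G} (hK : MeasurableSet K) (hL : MeasurableSet L) (hK' : μ K ≠ ∞)
    (hL' : μ L ≠ ∞) (s : G) :
    inner ℂ (indicatorConstLp 2 hL hL' (1 : ℂ)) (lreg μ s (indicatorConstLp 2 hK hK' (1 : ℂ))) =
      ((μ.real (L ∩ (fun x => s⁻¹ * x) ⁻¹' K) : ℝ) : ℂ) := by
  rw [lreg_apply, Lp.indicatorConstLp_compMeasurePreserving]
  exact L2.inner_indicatorConstLp_one_indicatorConstLp_one _ _ _ _

theorem hloc (W : Set G) (hW : W ∈ 𝓝 (1 : G)) : ∃ ξ η : Lp ℂ 2 μ, ‖ξ‖ = 1 ∧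
    ‖η - ξ‖ ≤ 1 / 100 ∧ (∀ s, s ∉ W → coef (lreg μ) ξ ξ s = 0 ∧ coef (lreg μ) ξ η s = 0) ∧
      ∀ᶠ s in 𝓝 (1 : G), coef (lreg μ) ξ η s = 1 := by
  obtain ⟨A, hA, hAW⟩ := exists_nhds_split_inv hW
  obtain ⟨B, hBo, hB1, hBA⟩ := exists_open_nhds_one_mul_subset hA
  obtain ⟨K, hKn, hKB, hK⟩ := local_compact_nhds (hBo.mem_nhds hB1)
  have hr0 : 0 < μ.real K := ENNReal.toReal_pos (Measure.measure_pos_of_mem_nhds μ hKn).ne'
    hK.measure_lt_top.ne
  set r : ℝ := μ.real K with hr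
  have hε : 0 < r / 10000 := by positivity
  obtain ⟨O, hKO, hO, hOm⟩ := hK.exists_isOpen_lt_add (μ := μ) (ε := ENNReal.ofReal (r / 10000))
    (by rw [ne_eq, ENNReal.ofReal_eq_zero]; exact not_le.2 hε)
  obtain ⟨V₀, hV₀, hV₀K⟩ := compact_open_separated_mul_left hK hO hKO
  set V : Set G := interior V₀ ∩ B with hV
  have hVo : IsOpen V := isOpen_interior.inter hBo
  have hV1 : (1 : G) ∈ V := ⟨mem_interior_iff_mem_nhds.2 hV₀, hB1⟩
  set L : Set G := V * K with hL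
  have hLo : IsOpen L := hVo.mul_right
  have hKL : K ⊆ L := fun x hx => ⟨1, hV1, x, hx, one_mul x⟩
  have hLO : L ⊆ O := (Set.mul_subset_mul_right (Set.inter_subset_left.trans interior_subset)).trans
    hV₀K
  have hKm := hK.measurableSet
  have hLm := hLo.measurableSet
  have hKf : μ K ≠ ∞ := hK.measure_lt_top.ne
  have hLlt : μ L < μ K + ENNReal.ofReal (r / 10000) := (measure_mono hLO).trans_lt hOm
  have hLf : μ L ≠ ∞ := (hLlt.trans (ENNReal.add_lt_top.2 ⟨hK.measure_lt_top, ENNReal.ofReal_lt_top⟩)).ne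
  have hLr : μ.real L ≤ r + r / 10000 := by
    have h1 := ENNReal.toReal_mono (ENNReal.add_lt_top.2 ⟨hK.measure_lt_top, ENNReal.ofReal_lt_top⟩).ne
      hLlt.le
    rwa [ENNReal.toReal_add hKf ENNReal.ofReal_ne_top, ENNReal.toReal_ofReal hε.le] at h1
  have hrL : r ≤ μ.real L := measureReal_mono hKL hLf
  set c : ℝ := (Real.sqrt r)⁻¹ with hc
  have hc2 : c * c = r⁻¹ := by
    rw [hc, ← mul_inv, Real.mul_self_sqrt hr0.le]
  set k := indicatorConstLp 2 hKm hKf (1 : ℂ) with hk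
  set l := indicatorConstLp 2 hLm hLf (1 : ℂ) with hl
  have hmul : ∀ (u v : Lp ℂ 2 μ) (s : G), inner ℂ ((c : ℂ) • u) (lreg μ s ((c : ℂ) • v)) =
      ((r⁻¹ : ℝ) : ℂ) * inner ℂ u (lreg μ s v) := by
    intro u v s
    rw [map_smul, inner_smul_left, inner_smul_right, Complex.conj_ofReal, ← mul_assoc,
      ← Complex.ofReal_mul, hc2]
  have hmul' : ∀ (u v : Lp ℂ 2 μ), inner ℂ ((c : ℂ) • u) ((c : ℂ) • v) =
      ((r⁻¹ : ℝ) : ℂ) * inner ℂ u v := by
    intro u v
    rw [inner_smul_left, inner_smul_right, Complex.conj_ofReal, ← mul_assoc,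
      ← Complex.ofReal_mul, hc2]
  have hkk : inner ℂ k k = (r : ℂ) := by
    have := L2.inner_indicatorConstLp_one_indicatorConstLp_one (𝕜 := ℂ) hKm hKm hKf hKf
    rwa [Set.inter_self] at this
  have hll : inner ℂ l l = (μ.real L : ℂ) := by
    have := L2.inner_indicatorConstLp_one_indicatorConstLp_one (𝕜 := ℂ) hLm hLm hLf hLf
    rwa [Set.inter_self] at this
  have hlk : inner ℂ l k = (r : ℂ) := by
    have := L2.inner_indicatorConstLp_one_indicatorConstLp_one (𝕜 := ℂ) hLm hKm hLf hKf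
    rwa [Set.inter_eq_right.2 hKL] at this
  have hkl : inner ℂ k l = (r : ℂ) := by
    have := L2.inner_indicatorConstLp_one_indicatorConstLp_one (𝕜 := ℂ) hKm hLm hKf hLf
    rwa [Set.inter_eq_left.2 hKL] at this
  have hnsq : ∀ v : Lp ℂ 2 μ, ‖v‖ ^ 2 = (inner ℂ v v : ℂ).re := fun v =>
    (inner_self_eq_norm_sq (𝕜 := ℂ) v).symm
  refine ⟨(c : ℂ) • k, (c : ℂ) • l, ?_, ?_, ?_, ?_⟩
  · have h1 : ‖(c : ℂ) • k‖ ^ 2 = 1 := by
      rw [hnsq, hmul', hkk, ← Complex.ofReal_mul, inv_mul_cancel₀ hr0.ne', Complex.ofReal_re]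
    have h2 : (0 : ℝ) ≤ ‖(c : ℂ) • k‖ := norm_nonneg _
    nlinarith
  · have h1 : ‖(c : ℂ) • l - (c : ℂ) • k‖ ^ 2 = r⁻¹ * (μ.real L - r) := by
      rw [← smul_sub, hnsq, hmul']
      have h3 : inner ℂ (l - k) (l - k) = ((μ.real L - r : ℝ) : ℂ) := by
        rw [inner_sub_left, inner_sub_right, inner_sub_right, hkk, hll, hlk, hkl]
        push_cast; ring
      rw [h3, ← Complex.ofReal_mul, Complex.ofReal_re]
    have h2 : r⁻¹ * (μ.real L - r) ≤ (1 / 100) ^ 2 := by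
      rw [inv_mul_le_iff₀ hr0]; linarith
    rw [← h1] at h2
    exact (pow_le_pow_iff_left₀ (norm_nonneg _) (by norm_num) (by norm_num)).1 h2
  · intro s hs
    have hdis : L ∩ (fun x => s⁻¹ * x) ⁻¹' K = ∅ := by
      rw [Set.eq_empty_iff_forall_notMem]
      rintro x ⟨⟨v, hv, y, hy, rfl⟩, hx2⟩
      apply hs
      have h1 : v * y ∈ A := hBA ⟨v, hv.2, y, hKB hy, rfl⟩
      have h2 : s⁻¹ * (v * y) ∈ A := hBA ⟨1, hB1, _, hKB hx2, one_mul _⟩
      have h3 := hAW _ h1 _ h2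
      have h4 : v * y / (s⁻¹ * (v * y)) = s := by
        rw [div_eq_mul_inv, mul_inv_rev, inv_inv]; exact mul_inv_cancel_left _ _
      rwa [h4] at h3
    have hdis' : K ∩ (fun x => s⁻¹ * x) ⁻¹' K = ∅ := by
      rw [← Set.subset_empty_iff, ← hdis]
      exact Set.inter_subset_inter_left _ hKL
    constructor
    · rw [coef, hmul, hk, inner_ind, hdis']; simp
    · rw [coef, hmul, hk, hl, inner_ind, hdis]; simp
  · filter_upwards [hVo.mem_nhds hV1] with s hs
    have hsub : (fun x => s⁻¹ * x) ⁻¹' K ⊆ L := by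
      intro x hx
      exact ⟨s, hs, s⁻¹ * x, hx, by simp⟩
    rw [coef, hmul, hk, hl, inner_ind, Set.inter_eq_right.2 hsub]
    have h1 : μ.real ((fun x => s⁻¹ * x) ⁻¹' K) = r := by
      rw [measureReal_def, measure_preimage_mul]
      rfl
    rw [h1, ← Complex.ofReal_mul, inv_mul_cancel₀ hr0.ne', Complex.ofReal_one]

end Pool.Agent.H25FA
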