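import Mathlib
import Pool.Agent.H25FA.Local

set_option autoImplicit false
set_option linter.unusedSectionVars false
set_option linter.deprecated false

/-!
# The discrete case
-/

open MeasureTheory Filter Topology
open scoped ENNReal Pointwise

namespace Pool.Agent.H25FA

open H434R3.Arens

section abs

variable {G : Type*} [Group G] {H : Type*} [NormedAddCommGroup H]
  [InnerProductSpace ℂ H] {U : G → H →L[ℂ] H}
  {A : Type*} [NonUnitalNormedCommRing A] [NormedSpace ℂ A] {ι : A → G → ℂ}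

theorem CoefAlg.map_sum (h : CoefAlg U ι) {J : Type*} (F : Finset J) (a : J → A) (s : G) :
    ι (∑ j ∈ F, a j) s = ∑ j ∈ F, ι (a j) s := by
  classical
  induction F using Finset.induction_on with
  | empty => simp [h.map_zero]
  | insert j F hj ih => rw [Finset.sum_insert hj, Finset.sum_insert hj, h.add, ih]

/-- extraction of a pointwise convergent subsequence -/
theorem exists_subseq (f : ℕ → G → ℂ) (C : ℝ) (hC : ∀ n s, ‖f n s‖ ≤ C)
    (hfin : ∀ n, {s | f n s ≠ 0}.Finite) :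
    ∃ ψ : ℕ → ℕ, StrictMono ψ ∧ ∀ s, ∃ z, Tendsto (fun n => f (ψ n) s) atTop (𝓝 z) := by
  classical
  set S : Set G := ⋃ n, {s | f n s ≠ 0} with hS
  have hSc : S.Countable := Set.countable_iUnion fun n => (hfin n).countable
  have : Countable S := hSc.to_subtype
  have hK : IsCompact (Set.pi Set.univ fun _ : S => Metric.closedBall (0 : ℂ) C) :=
    isCompact_univ_pi fun _ => isCompact_closedBall _ _
  obtain ⟨g, -, ψ, hψ, hg⟩ := hK.tendsto_subseq (x := fun n (s : S) => f n s)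
    (fun n s _ => by rw [mem_closedBall_zero_iff]; exact hC n s)
  rw [tendsto_pi_nhds] at hg
  refine ⟨ψ, hψ, fun s => ?_⟩
  by_cases hs : s ∈ S
  · exact ⟨g ⟨s, hs⟩, hg ⟨s, hs⟩⟩
  · refine ⟨0, ?_⟩
    have h1 : ∀ n, f (ψ n) s = 0 := by
      intro n
      by_contra hcon
      exact hs (Set.mem_iUnion.2 ⟨ψ n, hcon⟩)
    simp only [h1]
    exact tendsto_const_nhds

variable [CompleteSpace H] [IsScalarTower ℂ A A] [SMulCommClass ℂ A A]

theorem disc_abstract (hU : IsURep U) (h : CoefAlg U ι) (hinf : ¬ FiniteDimensional ℂ (VN hU))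
    (hdelta : ∀ s : G, ∃ d : A, ι d s = 1 ∧ ∀ t, t ≠ s → ι d t = 0)
    (happrox : ∀ ξ : H, ∃ ξ' : H, ‖ξ' - ξ‖ ≤ 1 / 100 ∧ {s | coef U ξ' ξ' s ≠ 0}.Finite) :
    ∃ D : Bidual A, D ≠ 0 ∧ ∀ Ψ : Bidual A, D * Ψ * D = 0 := by
  classical
  obtain ⟨ξ, hξ, hT⟩ := blocks hU hinf
  choose ξ' hξ' hfin using fun n => happrox (ξ n)
  choose a ha using fun n => h.exists_mem (ξ' n) (ξ' n)
  have hn : ∀ n, ‖ξ' n‖ ≤ 101 / 100 := by
    intro n
    have h3 : ‖ξ' n‖ ≤ ‖ξ' n - ξ n‖ + ‖ξ n‖ := by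
      have := norm_add_le (ξ' n - ξ n) (ξ n)
      rwa [sub_add_cancel] at this
    rw [hξ n] at h3
    linarith [hξ' n]
  have han : ∀ n, ‖a n‖ ≤ 2 := by
    intro n
    refine (ha n).2.trans ?_
    have := hn n
    nlinarith [norm_nonneg (ξ' n)]
  have hval : ∀ n s, ‖ι (a n) s‖ ≤ 2 := by
    intro n s
    rw [(ha n).1, coef]
    refine (norm_inner_le_norm _ _).trans ?_
    rw [hU.norm]
    have := hn n
    nlinarith [norm_nonneg (ξ' n)]
  have hfin' : ∀ n, {s | ι (a n) s ≠ 0}.Finite := by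
    intro n
    rw [(ha n).1]
    exact hfin n
  obtain ⟨ψ, hψ, hconv⟩ := exists_subseq (fun n => ι (a n)) 2 hval hfin'
  obtain ⟨T, hT1, hT2⟩ := hT (Set.range fun k => ψ (2 * k))
  choose d hd using hdelta
  set w : ℕ → A := fun k => a (ψ (2 * k)) - a (ψ (2 * k + 1)) with hw
  have hw0 : ∀ s, Tendsto (fun k => ι (w k) s) atTop (𝓝 0) := by
    intro s
    obtain ⟨z, hz⟩ := hconv s
    have h1 : Tendsto (fun k : ℕ => 2 * k) atTop atTop :=
      tendsto_atTop_mono (fun k => by simp only [id]; omega) tendsto_id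
    have h2 : Tendsto (fun k : ℕ => 2 * k + 1) atTop atTop :=
      tendsto_atTop_mono (fun k => by simp only [id]; omega) tendsto_id
    have h3 := (hz.comp h1).sub (hz.comp h2)
    rw [sub_self] at h3
    refine h3.congr fun k => ?_
    simp only [hw, Function.comp]
    rw [h.map_sub]
  have hwfin : ∀ k, {s | ι (w k) s ≠ 0}.Finite := by
    intro k
    refine ((hfin' (ψ (2 * k))).union (hfin' (ψ (2 * k + 1)))).subset fun s hs => ?_
    by_contra hcon
    simp only [Set.mem_union, Set.mem_setOf_eq, not_or, not_not] at hcon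
    apply hs
    simp only [hw]
    rw [h.map_sub, hcon.1, hcon.2, sub_zero]
  -- the functionals
  have hφ : ∀ N, ∃ φ : A →L[ℂ] ℂ, ‖φ‖ ≤ 1 ∧
      ∀ (a : A) (ξ η : H), ι a = coef U ξ η → φ a = inner ℂ η (T N ξ) := by
    intro N
    obtain ⟨φ, h1, h2⟩ := exists_functional h (hT1 N).1
    exact ⟨φ, h1.trans (hT1 N).2, h2⟩
  choose φ hφ1 hφ2 using hφ
  obtain ⟨D, hD⟩ := exists_limit_functional φ 1 hφ1 (hyperfilter ℕ)
  have hle : (hyperfilter ℕ : Filter ℕ) ≤ atTop := by
    rw [← Nat.cofinite_eq_atTop]; exact hyperfilter_le_cofinite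
  have hv : ∀ N n, ‖φ N (a n) - inner ℂ (ξ n) (T N (ξ n))‖ ≤ 3 / 100 := by
    intro N n
    rw [hφ2 N _ _ _ (ha n).1]
    have h1 : inner ℂ (ξ' n) (T N (ξ' n)) - inner ℂ (ξ n) (T N (ξ n)) =
        inner ℂ (ξ' n - ξ n) (T N (ξ' n)) + inner ℂ (ξ n) (T N (ξ' n - ξ n)) := by
      rw [inner_sub_left, map_sub, inner_sub_right]; ring
    rw [h1]
    have h2 := (T N).le_of_opNorm_le (hT1 N).2 (ξ' n)
    have h3 := (T N).le_of_opNorm_le (hT1 N).2 (ξ' n - ξ n)
    rw [one_mul] at h2 h3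
    calc _ ≤ ‖ξ' n - ξ n‖ * ‖T N (ξ' n)‖ + ‖ξ n‖ * ‖T N (ξ' n - ξ n)‖ :=
          (norm_add_le _ _).trans (add_le_add (norm_inner_le_norm _ _) (norm_inner_le_norm _ _))
      _ ≤ 1 / 100 * (101 / 100) + 1 * (1 / 100) := by
          refine add_le_add (mul_le_mul (hξ' n) (h2.trans (hn n)) (norm_nonneg _) (by norm_num)) ?_
          exact mul_le_mul (hξ n).le (h3.trans (hξ' n)) (norm_nonneg _) (by norm_num)
      _ ≤ 3 / 100 := by norm_num
  refine crit w 4 (fun k => ?_) (fun i => ?_) D (1 / 8) (by norm_num) (fun k => ?_)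
  · refine (norm_sub_le _ _).trans ?_
    have := han (ψ (2 * k)); have := han (ψ (2 * k + 1))
    linarith
  · set F : Finset G := (hwfin i).toFinset with hF
    have hprod : ∀ k, w i * w k = ∑ s ∈ F, (ι (w i) s * ι (w k) s) • d s := by
      intro k
      apply h.inj
      funext t
      rw [h.mul, h.map_sum]
      by_cases ht : t ∈ F
      · rw [Finset.sum_eq_single t]
        · rw [h.smul, (hd t).1, mul_one]
        · intro s _ hst
          rw [h.smul, (hd s).2 t (Ne.symm hst), mul_zero]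
        · intro h'; exact absurd ht h'
      · have h0 : ι (w i) t = 0 := by
          by_contra hcon
          exact ht ((hwfin i).mem_toFinset.2 hcon)
        rw [h0, zero_mul]
        symm
        refine Finset.sum_eq_zero fun s hs => ?_
        rw [h.smul, (hd s).2 t (by rintro rfl; exact ht hs), mul_zero]
    have hb : ∀ k, ‖w i * w k‖ ≤ ∑ s ∈ F, ‖ι (w i) s‖ * ‖d s‖ * ‖ι (w k) s‖ := by
      intro k
      rw [hprod k]
      refine norm_sum_le_of_le F fun s _ => ?_
      rw [norm_smul, norm_mul]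
      apply le_of_eq; ring
    have hlim : Tendsto (fun k => ∑ s ∈ F, ‖ι (w i) s‖ * ‖d s‖ * ‖ι (w k) s‖) atTop (𝓝 0) := by
      have h1 : Tendsto (fun k => ∑ s ∈ F, ‖ι (w i) s‖ * ‖d s‖ * ‖ι (w k) s‖) atTop
          (𝓝 (∑ s ∈ F, ‖ι (w i) s‖ * ‖d s‖ * 0)) := by
        refine tendsto_finset_sum _ fun s _ => ?_
        refine Tendsto.const_mul _ ?_
        have := (hw0 s).norm
        rwa [norm_zero] at this
      simpa using h1
    exact squeeze_zero (fun k => norm_nonneg _) hb hlim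
  · refine ge_of_tendsto ((hD _).norm) ?_
    refine hle ?_
    filter_upwards [eventually_gt_atTop (ψ (2 * k)), eventually_gt_atTop (ψ (2 * k + 1))]
      with N hN1 hN2
    have h1 := (hT2 _ N hN1).1 ⟨k, rfl⟩
    have h2 : T N (ξ (ψ (2 * k + 1))) = 0 := (hT2 _ N hN2).2 (by
      rintro ⟨l, hl⟩
      have := hψ.injective hl
      omega)
    have h3 := hv N (ψ (2 * k))
    have h4 := hv N (ψ (2 * k + 1))
    rw [h2, inner_zero_right, sub_zero] at h4
    have h5 := (Complex.abs_re_le_norm _).trans h3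
    have h6 := (Complex.abs_re_le_norm _).trans h4
    rw [Complex.sub_re] at h5
    rw [abs_le] at h5 h6
    have h7 : (1 / 8 : ℝ) ≤ (φ N (w k)).re := by
      rw [hw]; simp only
      rw [_root_.map_sub, Complex.sub_re]
      linarith [h5.1, h6.2]
    exact h7.trans (Complex.re_le_norm _)

end abs

end Pool.Agent.H25FA
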