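import Mathlib
import Pool.Agent.H25FA.Disc

set_option autoImplicit false
set_option linter.unusedSectionVars false
set_option linter.deprecated false

/-!
# The radical of the second dual of the Fourier algebra
-/

open MeasureTheory Filter Topology
open scoped ENNReal Pointwise

namespace Pool.Agent.H25FA

open H434R3.Arens

variable {G : Type*} [Group G] [TopologicalSpace G] [IsTopologicalGroup G]
  [LocallyCompactSpace G] [T2Space G] [MeasurableSpace G] [BorelSpace G] (μ : Measure G)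
  [μ.IsHaarMeasure] [μ.Regular]
  {A : Type*} [NonUnitalNormedCommRing A] [NormedSpace ℂ A]

/-- the non-discrete case -/
theorem nondisc [IsScalarTower ℂ A A] [SMulCommClass ℂ A A] (hnd : ¬ DiscreteTopology G)
    {ι : A → G → ℂ} (h : IsFourierAlgebra μ ι) :
    ∃ D : Bidual A, D ≠ 0 ∧ ∀ Ψ : Bidual A, D * Ψ * D = 0 := by
  have : (𝓝[≠] (1 : G)).NeBot := by
    rw [neBot_iff]
    intro h1
    exact hnd (discreteTopology_of_isOpen_singleton_one
      ((isOpen_singleton_iff_punctured_nhds 1).2 h1))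
  refine nondisc_abstract (isURep_lreg μ) h ?_ (happ μ) (hloc μ)
  intro ξ ε hε
  have h1 : Tendsto (fun t : G => lreg μ t ξ - ξ) (𝓝 1) (𝓝 0) := by
    have h2 : Tendsto (fun t : G => lreg μ t ξ - ξ) (𝓝 1) (𝓝 (lreg μ 1 ξ - ξ)) :=
      ((continuous_lreg μ ξ).sub (continuous_const (y := ξ))).tendsto 1
    rw [lreg_one] at h2
    have h3 : (1 : Lp ℂ 2 μ →L[ℂ] Lp ℂ 2 μ) ξ - ξ = 0 := sub_self ξ
    rw [h3] at h2
    exact h2
  have h4 := h1.norm
  rw [norm_zero] at h4
  exact h4.eventually (Iic_mem_nhds hε)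

section disc

variable [DiscreteTopology G]

/-- the indicator function of the identity -/
noncomputable def dl : Lp ℂ 2 μ :=
  indicatorConstLp 2 (measurableSet_singleton (1 : G)) (isCompact_singleton.measure_lt_top.ne) (1 : ℂ)

theorem inner_dl [DecidableEq G] (s t : G) : inner ℂ (lreg μ s (dl μ)) (lreg μ t (dl μ)) =
    if s = t then (μ.real {(1 : G)} : ℂ) else 0 := by
  have h1 : inner ℂ (lreg μ s (dl μ)) (lreg μ t (dl μ)) =
      inner ℂ (dl μ) (lreg μ (s⁻¹ * t) (dl μ)) := by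
    rw [(isURep_lreg μ).adj, lreg_mul]; rfl
  rw [h1, dl, inner_ind]
  split_ifs with h
  · subst h
    have : ({1} : Set G) ∩ (fun x => (s⁻¹ * s)⁻¹ * x) ⁻¹' {1} = {1} := by
      ext x; simp
    rw [this]
  · have : ({1} : Set G) ∩ (fun x => (s⁻¹ * t)⁻¹ * x) ⁻¹' {1} = ∅ := by
      rw [Set.eq_empty_iff_forall_notMem]
      rintro x ⟨hx, hx2⟩
      rw [Set.mem_singleton_iff] at hx
      subst hx
      simp only [Set.mem_preimage, mul_one, Set.mem_singleton_iff, inv_eq_one] at hx2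
      exact h (inv_mul_eq_one.1 hx2)
    rw [this]; simp

theorem real_one_pos : 0 < μ.real {(1 : G)} :=
  ENNReal.toReal_pos ((isOpen_discrete {(1 : G)}).measure_pos μ ⟨1, rfl⟩).ne'
    (isCompact_singleton.measure_lt_top.ne)

theorem hinf [Infinite G] : ¬ FiniteDimensional ℂ (VN (isURep_lreg μ)) := by
  classical
  intro hfd
  have hr := real_one_pos μ
  have h1 : LinearIndependent ℂ fun s : G => lreg μ s (dl μ) := by
    refine linearIndependent_of_ne_zero_of_inner_eq_zero (fun s h0 => ?_) fun s t hst => ?_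
    · have h2 := inner_dl μ s s
      rw [if_pos rfl, h0, inner_zero_left] at h2
      exact hr.ne' (Complex.ofReal_eq_zero.1 h2.symm)
    · simp only
      rw [inner_dl, if_neg hst]
  let f : VN (isURep_lreg μ) →ₗ[ℂ] Lp ℂ 2 μ :=
    { toFun := fun T => (T : Lp ℂ 2 μ →L[ℂ] Lp ℂ 2 μ) (dl μ)
      map_add' := fun _ _ => rfl
      map_smul' := fun _ _ => rfl }
  have h2 : LinearIndependent ℂ fun s : G => (⟨lreg μ s, kills_U s⟩ : VN (isURep_lreg μ)) :=
    LinearIndependent.of_comp f h1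
  have := h2.finite_of_isNoetherian
  exact not_finite G

theorem hdelta {ι : A → G → ℂ} (h : IsFourierAlgebra μ ι) (s : G) :
    ∃ d : A, ι d s = 1 ∧ ∀ t, t ≠ s → ι d t = 0 := by
  classical
  have hr := real_one_pos μ
  obtain ⟨a, ha, -⟩ := h.exists_mem (dl μ) (lreg μ s (dl μ))
  have h1 : ∀ t, ι (((μ.real {(1 : G)} : ℂ))⁻¹ • a) t = if s = t then 1 else 0 := by
    intro t
    rw [h.smul, ha, coef, inner_dl]
    split_ifs
    · rw [inv_mul_cancel₀]
      exact_mod_cast hr.ne'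
    · rw [mul_zero]
  exact ⟨_, by rw [h1, if_pos rfl], fun t ht => by rw [h1, if_neg (Ne.symm ht)]⟩

theorem happrox (ξ : Lp ℂ 2 μ) : ∃ ξ' : Lp ℂ 2 μ, ‖ξ' - ξ‖ ≤ 1 / 100 ∧
    {s | coef (lreg μ) ξ' ξ' s ≠ 0}.Finite := by
  obtain ⟨g, hgs, hgn, -, hg⟩ := (Lp.memLp ξ).exists_hasCompactSupport_eLpNorm_sub_le
    (by norm_num : (2 : ℝ≥0∞) ≠ ∞) (ε := ENNReal.ofReal (1 / 100)) (by simp)
  refine ⟨hg.toLp g, ?_, ?_⟩
  · have h1 : ‖ξ - hg.toLp g‖ ≤ 1 / 100 := by
      rw [Lp.norm_def]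
      refine ENNReal.toReal_le_of_le_ofReal (by norm_num) ?_
      refine le_trans (le_of_eq ?_) hgn
      refine eLpNorm_congr_ae ?_
      filter_upwards [Lp.coeFn_sub ξ (hg.toLp g), hg.coeFn_toLp] with x h1 h2
      rw [h1, Pi.sub_apply, Pi.sub_apply, h2]
    rwa [norm_sub_rev]
  · have hK : (tsupport g).Finite := hgs.isCompact.finite_of_discrete
    refine (hK.mul hK.inv).subset fun s hs => ?_
    by_contra hcon
    apply hs
    rw [coef, L2.inner_def]
    refine integral_eq_zero_of_ae ?_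
    have h2 := (measurePreserving_mul_left μ s⁻¹).quasiMeasurePreserving.ae hg.coeFn_toLp
    filter_upwards [hg.coeFn_toLp, lreg_ae μ s (hg.toLp g), h2] with x h3 h4 h5
    rw [h4, h5, h3, Pi.zero_apply]
    by_cases hx : g x = 0
    · rw [hx, inner_zero_left]
    · by_cases hx2 : g (s⁻¹ * x) = 0
      · rw [hx2, inner_zero_right]
      · exfalso
        apply hcon
        refine ⟨x, subset_tsupport g hx, (s⁻¹ * x)⁻¹, ?_, ?_⟩
        · rw [Set.mem_inv, inv_inv]
          exact subset_tsupport g hx2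
        · simp only
          rw [mul_inv_rev, inv_inv]; exact mul_inv_cancel_left _ _

end disc

theorem disc [IsScalarTower ℂ A A] [SMulCommClass ℂ A A] [DiscreteTopology G] [Infinite G]
    {ι : A → G → ℂ} (h : IsFourierAlgebra μ ι) :
    ∃ D : Bidual A, D ≠ 0 ∧ ∀ Ψ : Bidual A, D * Ψ * D = 0 :=
  disc_abstract (isURep_lreg μ) h (hinf μ) (hdelta μ h) (happrox μ)

/-- the main theorem -/
theorem main [IsScalarTower ℂ A A] [SMulCommClass ℂ A A] [Infinite G]
    {ι : A → G → ℂ} (h : IsFourierAlgebra μ ι) :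
    ∃ D : Bidual A, D ≠ 0 ∧ InRad D ∧ ∀ Ψ : Bidual A, D * Ψ * D = 0 := by
  by_cases hd : DiscreteTopology G
  · obtain ⟨D, h1, h2⟩ := disc μ h
    exact ⟨D, h1, inRad_of_nil D h2, h2⟩
  · obtain ⟨D, h1, h2⟩ := nondisc μ hd h
    exact ⟨D, h1, inRad_of_nil D h2, h2⟩

end Pool.Agent.H25FA
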